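import Pool.Agent.H42.NP.Main

/-!
# The finite blocks
-/

set_option autoImplicit false

namespace Pool.Agent.H42.NP

open Finset

variable {𝕜 : Type*} [RCLike 𝕜]
variable {E : Type*} [NormedAddCommGroup E] [NormedSpace 𝕜 E]

/-- Norming functionals of a finite-dimensional subspace. -/
theorem exists_norming (F : Submodule 𝕜 E) [FiniteDimensional 𝕜 F] :
    ∃ (q : ℕ) (η : ℕ → E →L[𝕜] 𝕜), (∀ l, ‖η l‖ ≤ 1) ∧
      ∀ f ∈ F, ∃ l < q, ‖f‖ ≤ 2 * ‖η l f‖ := by
  classical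
  have : ProperSpace F := FiniteDimensional.proper 𝕜 F
  obtain ⟨t, -, htf, ht⟩ := (isCompact_closedBall (0 : F) 1).finite_cover_balls
    (e := 1 / 4) (by norm_num)
  have hdual : ∀ c : F, ∃ g : E →L[𝕜] 𝕜, ‖g‖ ≤ 1 ∧ g (c : E) = (‖(c : E)‖ : 𝕜) := by
    intro c
    obtain ⟨g, h1, h2⟩ := exists_dual_vector'' 𝕜 (c : E)
    exact ⟨g, h1, h2⟩
  choose g hg1 hg2 using hdual
  let e := htf.toFinset.equivFin
  obtain ⟨η, hη⟩ : ∃ η : ℕ → E →L[𝕜] 𝕜, ∀ l, η l = if hl : l < htf.toFinset.card then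
    g (e.symm ⟨l, hl⟩ : F) else 0 := ⟨_, fun l => rfl⟩
  have hηe : ∀ c (hc : c ∈ htf.toFinset), η (e ⟨c, hc⟩) = g c := by
    intro c hc
    rw [hη, dif_pos (e ⟨c, hc⟩).2, Fin.eta, Equiv.symm_apply_apply]
  -- unit vectors
  have key : ∀ u : F, ‖u‖ ≤ 1 → ∃ l < htf.toFinset.card,
      ‖u‖ - 1 / 2 ≤ ‖η l (u : E)‖ := by
    intro u hu
    have h1 := ht (mem_closedBall_zero_iff.2 hu)
    simp only [Set.mem_iUnion, exists_prop] at h1
    obtain ⟨c, hc, hc2⟩ := h1
    have hcm : c ∈ htf.toFinset := htf.mem_toFinset.2 hc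
    refine ⟨e ⟨c, hcm⟩, (e ⟨c, hcm⟩).2, ?_⟩
    rw [hηe]
    rw [Metric.mem_ball, dist_eq_norm] at hc2
    have h2 : ‖(u : E) - (c : E)‖ < 1 / 4 := hc2
    have h3 : ‖(u : E)‖ ≤ ‖(u : E) - (c : E)‖ + ‖(c : E)‖ := by
      calc ‖(u : E)‖ = ‖((u : E) - (c : E)) + (c : E)‖ := by rw [sub_add_cancel]
        _ ≤ _ := norm_add_le _ _
    have h4 : ‖g c ((u : E) - (c : E))‖ ≤ ‖(u : E) - (c : E)‖ := by
      refine ((g c).le_opNorm _).trans ?_
      exact mul_le_of_le_one_left (norm_nonneg _) (hg1 c)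
    have h5 : ‖(c : E)‖ ≤ ‖g c (u : E)‖ + ‖g c ((u : E) - (c : E))‖ := by
      have h6 : g c (c : E) = g c (u : E) - g c ((u : E) - (c : E)) := by
        rw [map_sub]; ring
      calc ‖(c : E)‖ = ‖g c (c : E)‖ := by
            rw [hg2, RCLike.norm_ofReal, abs_of_nonneg (norm_nonneg _)]
        _ ≤ _ := by rw [h6]; exact norm_sub_le _ _
    have h7 : ‖(u : E)‖ = ‖u‖ := rfl
    linarith
  refine ⟨htf.toFinset.card, η, fun l => ?_, fun f hf => ?_⟩
  · rw [hη]
    split_ifs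
    · exact hg1 _
    · rw [norm_zero]
      exact zero_le_one
  · rcases eq_or_ne f 0 with rfl | hf0
    · obtain ⟨l, hl, -⟩ := key 0 (by rw [norm_zero]; exact zero_le_one)
      refine ⟨l, hl, ?_⟩
      rw [norm_zero]
      positivity
    · have hpos : 0 < ‖f‖ := norm_pos_iff.2 hf0
      let u : F := ((‖f‖ : 𝕜)⁻¹) • ⟨f, hf⟩
      have hu : (u : E) = ((‖f‖ : 𝕜)⁻¹) • f := rfl
      have hun : ‖u‖ = 1 := by
        have : ‖u‖ = ‖(u : E)‖ := rfl
        rw [this, hu, norm_smul, norm_inv, RCLike.norm_ofReal, abs_of_pos hpos,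
          inv_mul_cancel₀ hpos.ne']
      obtain ⟨l, hl, h1⟩ := key u hun.le
      refine ⟨l, hl, ?_⟩
      rw [hun, hu, map_smul, norm_smul, norm_inv, RCLike.norm_ofReal, abs_of_pos hpos] at h1
      rw [← div_eq_inv_mul, le_div_iff₀ hpos] at h1
      linarith

/-- A block of a basis, with its coordinates. -/
structure FBlock (P : ℕ → E →L[𝕜] E) (κ : ℝ) (k l n : ℕ) (x : ℕ → E) (b : ℕ → E →ₗ[𝕜] 𝕜) :
    Prop where
  pos : 0 < n
  norm_x : ∀ i < n, ‖x i‖ ≤ 1
  Pl : ∀ i < n, P l (x i) = x i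
  Pk : ∀ i < n, P k (x i) = 0
  norm_b : ∀ i < n, ∀ f, ‖b i f‖ ≤ κ * ‖f‖
  norm_bp : ∀ i ≤ n, ∀ f, ‖∑ i' ∈ range i, b i' f • x i'‖ ≤ κ * ‖f‖
  sum : ∀ f, ∑ i ∈ range n, b i f • x i = P l f - P k f

/-- `nu` of a unit vector -/
lemma one_le_nu_single {M N : ℕ} {sp : ℕ → Prop} [DecidablePred sp] {c : ℕ → ℕ → 𝕜} {i : ℕ}
    (hi : i < M * (N + 1)) : 1 ≤ nu M N sp c (Pi.single i (1 : 𝕜)) := by
  rw [nu_eq]
  have h0 : 0 ≤ ∑ s ∈ range N, va M N (Pi.single i (1 : 𝕜)) s :=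
    sum_nonneg fun s _ => va_nonneg _ s
  have h1 : 0 ≤ ∑ j ∈ range M, ‖uu M N sp c (Pi.single i (1 : 𝕜)) j‖ :=
    sum_nonneg fun _ _ => norm_nonneg _
  have h2 : 0 ≤ ∑ j ∈ range M, ‖zz N sp (Pi.single i (1 : 𝕜)) j‖ :=
    sum_nonneg fun _ _ => norm_nonneg _
  obtain ⟨j, τ, hτ, rfl⟩ := exists_dm (q := N) i
  have hj : j < M := by
    by_contra hcon
    have : M * (N + 1) ≤ j * (N + 1) := Nat.mul_le_mul_right _ (not_lt.1 hcon)
    omega
  rcases Nat.eq_zero_or_pos τ with rfl | hpos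
  · have hco : ∀ s < N, co M N (Pi.single (j * (N + 1) + 0) (1 : 𝕜)) s j = 0 := by
      intro s hs
      unfold co
      rw [if_pos hj, Pi.single_eq_of_ne (by omega)]
    by_cases hsp : sp j
    · have h3 : 1 ≤ ∑ j' ∈ range M, ‖uu M N sp c (Pi.single (j * (N + 1) + 0) (1 : 𝕜)) j'‖ := by
        refine le_trans ?_ (single_le_sum (fun _ _ => norm_nonneg _) (mem_range.2 hj))
        unfold uu ph
        rw [if_pos hsp, add_zero, Pi.single_eq_same, sum_eq_zero, sub_zero, norm_one]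
        intro s hs
        have := hco s (mem_range.1 hs)
        rw [add_zero] at this
        rw [this, mul_zero]
      linarith
    · have h3 : 1 ≤ ∑ j' ∈ range M, ‖zz N sp (Pi.single (j * (N + 1) + 0) (1 : 𝕜)) j'‖ := by
        refine le_trans ?_ (single_le_sum (fun _ _ => norm_nonneg _) (mem_range.2 hj))
        unfold zz ph
        rw [if_neg hsp, add_zero, Pi.single_eq_same, norm_one]
      linarith
  · have h3 : 1 ≤ ∑ s ∈ range N, va M N (Pi.single (j * (N + 1) + τ) (1 : 𝕜)) s := by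
      refine le_trans ?_ (single_le_sum (fun s _ => va_nonneg _ s)
        (mem_range.2 (by omega : τ - 1 < N)))
      refine le_trans ?_ (norm_co_le _ (τ - 1) j)
      unfold co
      rw [if_pos hj, show j * (N + 1) + (τ - 1) + 1 = j * (N + 1) + τ by omega,
        Pi.single_eq_same, norm_one]
    linarith

/-- A tail of `ℓ_1`-vectors. -/
def TailL1 (P : ℕ → E →L[𝕜] E) (C₁ : ℝ) : Prop :=
  ∀ n k : ℕ, ∃ (l : ℕ) (z : Fin n → E), k ≤ l ∧ (∀ i, P l (z i) = z i) ∧ (∀ i, P k (z i) = 0) ∧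
    (∀ i, ‖z i‖ ≤ C₁) ∧ ∀ a : Fin n → 𝕜, ∑ i, ‖a i‖ ≤ ‖∑ i, a i • z i‖

theorem block_main {P : ℕ → E →L[𝕜] E} {κ C₁ K : ℝ} {k l n : ℕ} {x : ℕ → E}
    {b : ℕ → E →ₗ[𝕜] 𝕜} (hF : FBlock P κ k l n x b) (hkl : k ≤ l)
    (hκ : ∀ i j, ‖P i - P j‖ ≤ κ) (hPP : ∀ n m v, P n (P m v) = P (min n m) v)
    (hC₁ : 0 ≤ C₁) (hTail : TailL1 P C₁) (hK : 0 ≤ K)
    (hfac : ¬ Fac (P l - P k) (2 * κ) (2 * κ * K * C₁)) :
    ∃ (l' R h : ℕ) (Sp : Finset ℕ) (y : ℕ → E), 0 < R ∧ k ≤ l' ∧ Sp ⊆ range R ∧ h ≤ Sp.card ∧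
      (∀ j < R, P l' (y j) = y j ∧ P k (y j) = 0 ∧ y j ≠ 0) ∧
      (∀ (a : ℕ → 𝕜) (r : ℕ), r ≤ R →
        ‖∑ j ∈ range r, a j • y j‖ ≤ (6 + C₁) * 5 * κ * ‖∑ j ∈ range R, a j • y j‖) ∧
      (∀ A ⊆ range R, (A ∩ Sp).card = h → ∀ T : E →L[𝕜] E,
        (∀ j < R, T (y j) = if j ∈ A then y j else 0) → K ≤ ‖T‖) := by
  classical
  have hκ0 : 0 ≤ κ := (norm_nonneg _).trans (hκ 0 0)
  obtain ⟨r, hr⟩ := exists_nat_gt (6 * κ * K * (6 + C₁))
  have hr0 : 0 < r := by
    have : 0 ≤ 6 * κ * K * (6 + C₁) := by positivity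
    exact_mod_cast this.trans_lt hr
  -- norming functionals
  let F : Submodule 𝕜 E := Submodule.span 𝕜 (x '' (range n : Set ℕ))
  have : FiniteDimensional 𝕜 F :=
    FiniteDimensional.span_of_finite 𝕜 ((range n).finite_toSet.image x)
  obtain ⟨q, η, hη, hnorm⟩ := exists_norming F
  obtain ⟨m, rfl⟩ : ∃ m, m = 2 * r := ⟨_, rfl⟩
  have hm : 0 < 2 * r := by omega
  set m := 2 * r with hm_def
  set D := m * (n * m * 2) with hD_def
  have hn := hF.pos
  have hD : 0 < D := by positivity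
  obtain ⟨N, d, hV⟩ := exists_vdata (D := D) (q := q) (h := hh n m x η) (fun k => hh_zero k)
    (fun k l => norm_hh_le_one hn hm hF.norm_x hη k l)
  obtain ⟨l', z', hll', hz1, hz2, hz3, hz4⟩ := hTail (Fintype.card (Om (D * (q + 1)) N)) l
  let e := Fintype.equivFin (Om (D * (q + 1)) N)
  let z : Om (D * (q + 1)) N → E := fun ω => z' (e ω)
  let vv : ℕ → E := fun j => vx (𝕜 := 𝕜) n m x (j / (q + 1))
  have hvv : ∀ j, P l (vv j) = vv j ∧ P k (vv j) = 0 := by
    intro j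
    simp only [vv, vx]
    split_ifs
    · rw [map_smul, map_smul, hF.Pl _ (Nat.mod_lt _ hn), hF.Pk _ (Nat.mod_lt _ hn), smul_zero]
      exact ⟨rfl, rfl⟩
    · rw [map_zero, map_zero]
      exact ⟨rfl, rfl⟩
  have hvF : ∀ j, vv j ∈ F := by
    intro j
    simp only [vv, vx]
    split_ifs
    · exact F.smul_mem _ (Submodule.subset_span ⟨_, by
        rw [mem_coe, mem_range]; exact Nat.mod_lt _ hn, rfl⟩)
    · exact F.zero_mem
  have hPkl : ∀ v, P l v = v → P l' v = v := by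
    intro v hv
    have := hPP l' l v
    rw [hv, min_eq_right hll', hv] at this
    exact this
  have hPkz : ∀ v, P l v = 0 → P k v = 0 := by
    intro v hv
    have := hPP k l v
    rw [hv, map_zero, min_eq_left hkl] at this
    exact this.symm
  have hE : EData (𝕜 := 𝕜) (D * (q + 1)) N (spq q) (P l - P k) (P l' - P l) κ C₁ vv z
      (wv D q (hh n m x η)) := by
    refine ⟨hκ _ _, hκ _ _, fun g => ?_, fun ω => hz3 _, fun ω => ?_, fun ω => ?_, fun j _ _ => ?_,
      fun j _ _ => ?_, fun α => ?_⟩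
    · have h1 := hz4 (fun i => g (e.symm i))
      rw [← Equiv.sum_comp e, ← Equiv.sum_comp e (fun i => g (e.symm i) • z' i)] at h1
      simp only [Equiv.symm_apply_apply] at h1
      exact h1
    · rw [_root_.sub_apply, hz1, hz2, sub_zero]
    · rw [_root_.sub_apply, hz2, hPkz _ (hz2 _), sub_zero]
    · rw [_root_.sub_apply, (hvv j).1, (hvv j).2, sub_zero]
    · rw [_root_.sub_apply, hPkl _ (hvv j).1, (hvv j).1, sub_self]
    · let σ : ℕ → 𝕜 := fun j => ph N α j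
      let s : ℕ → 𝕜 := fun k => σ (k * (q + 1))
      have h1 : vl (D * (q + 1)) N (spq q) vv α =
          ∑ k ∈ range D, s k • vx (𝕜 := 𝕜) n m x k := by
        have : vl (D * (q + 1)) N (spq q) vv α = io (D * (q + 1)) (spq q) vv σ := rfl
        rw [this, io_eq]
        refine sum_congr rfl fun k _ => ?_
        simp only [vv, Nat.mul_div_cancel _ (Nat.succ_pos q)]
        rfl
      have h2 : ∑ j ∈ range (D * (q + 1)), (if spq q j then ph N α j else 0) •
          wv D q (hh n m x η) j = io (D * (q + 1)) (spq q) (wv D q (hh n m x η)) σ := rfl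
      rw [h2]
      have h3 : vl (D * (q + 1)) N (spq q) vv α ∈ F := by
        rw [vl_apply]
        exact F.sum_mem fun j _ => F.smul_mem _ (hvF j)
      obtain ⟨lq, hlq, h4⟩ := hnorm _ h3
      refine h4.trans (mul_le_mul_of_nonneg_left ?_ (by norm_num))
      have h5 := norm_le_pi_norm (io (D * (q + 1)) (spq q) (wv D q (hh n m x η)) σ)
        (⟨D - 1, by omega⟩, (⟨lq + 1, by omega⟩ : Fin (q + 1)))
      rw [io_apply] at h5
      simp only at h5
      have h6 : ∑ k ∈ range (D - 1 + 1), σ (k * (q + 1)) * hh n m x η k (lq + 1) =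
          η lq (vl (D * (q + 1)) N (spq q) vv α) := by
        rw [show D - 1 + 1 = D by omega, h1]
        have := sum_hh (n := n) (m := m) (x := x) (η := η) s D (lq + 1)
        rw [if_neg (Nat.succ_ne_zero lq), Nat.add_sub_cancel] at this
        exact this
      rw [h6] at h5
      exact h5
  let c : ℕ → ℕ → 𝕜 := fun j s => cfn D q (hh n m x η) j (d s)
  let y : ℕ → E := fun i => yl (D * (q + 1)) N (spq q) c vv z (Pi.single i (1 : 𝕜))
  let Sp : Finset ℕ := (range D).image fun k => k * (q + 1) * (N + 1)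
  have hinj : Function.Injective fun k : ℕ => k * (q + 1) * (N + 1) := by
    intro a b hab
    simp only at hab
    have h1 := Nat.eq_of_mul_eq_mul_right (Nat.succ_pos N) hab
    exact Nat.eq_of_mul_eq_mul_right (Nat.succ_pos q) h1
  have hSpc : Sp.card = D := by
    rw [card_image_of_injective _ hinj, card_range]
  refine ⟨l', D * (q + 1) * (N + 1), m * n * m, Sp, y, by positivity, hkl.trans hll', ?_, ?_, ?_,
    ?_, ?_⟩
  · intro i hi
    obtain ⟨k', hk', rfl⟩ := mem_image.1 hi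
    rw [mem_range] at hk' ⊢
    have h1 : k' * (q + 1) < D * (q + 1) := Nat.mul_lt_mul_of_pos_right hk' (Nat.succ_pos q)
    exact Nat.mul_lt_mul_of_pos_right h1 (Nat.succ_pos N)
  · rw [hSpc, hD_def]
    nlinarith [Nat.zero_le (m * n * m)]
  · intro j hj
    refine ⟨?_, ?_, ?_⟩
    · simp only [y]
      rw [yl_apply, map_add, vl_apply, jl_apply, map_sum, map_sum]
      congr 1
      · exact sum_congr rfl fun j _ => by rw [map_smul, hPkl _ (hvv j).1]
      · exact sum_congr rfl fun ω _ => by rw [map_smul, hz1]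
    · simp only [y]
      rw [yl_apply, map_add, vl_apply, jl_apply, map_sum, map_sum, sum_eq_zero, sum_eq_zero,
        add_zero]
      · exact fun ω _ => by rw [map_smul, hPkz _ (hz2 _), smul_zero]
      · exact fun j _ => by rw [map_smul, (hvv j).2, smul_zero]
    · intro h0
      have h1 := le_norm_yl hE c (Pi.single j (1 : 𝕜))
      have h2 := one_le_nu_single (sp := spq q) (c := c) hj
      simp only [y] at h0
      rw [h0, norm_zero, mul_zero] at h1
      linarith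
  · intro a r' hr'
    have h1 := yl_grunblum hV hE hC₁ a r'
    rw [yl_cut_eq_sum] at h1
    have h2 := yl_cut (M := D * (q + 1)) (N := N) (sp := spq q) (c := c) vv z a
    rw [yl_cut_eq_sum] at h2
    rw [← h2] at h1
    exact h1
  · intro A hA hAc T hT
    by_contra hcon
    push Not at hcon
    apply hfac
    refine main_fac (L := m) (r := r) hn hm (by omega) (by omega) hr0 hF.norm_x hη hV hE hC₁
      hcon.le hr hT ?_ hF.norm_b hF.norm_bp (fun f => ?_)
    · have h1 : A ∩ Sp = ((range D).filter fun k => k * (q + 1) * (N + 1) ∈ A).image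
          fun k => k * (q + 1) * (N + 1) := by
        ext i
        simp only [mem_inter, Sp, mem_image, mem_filter]
        constructor
        · rintro ⟨h1, k', hk', rfl⟩
          exact ⟨k', ⟨hk', h1⟩, rfl⟩
        · rintro ⟨k', ⟨hk', h1⟩, rfl⟩
          exact ⟨h1, k', hk', rfl⟩
      rw [h1, card_image_of_injective _ hinj] at hAc
      rw [hAc]
      ring
    · rw [hF.sum, _root_.sub_apply]

end Pool.Agent.H42.NP
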