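import Pool.Agent.H42.NP.TailOne
import Pool.Agent.H14.NP.Defs

/-!
# Normalized bases, their coordinates, and factorization through `ℓ_∞`
-/

set_option autoImplicit false

namespace Pool.Agent.H42.NP

open Finset Filter Topology

variable {𝕜 : Type*} [RCLike 𝕜]
variable {E : Type*} [NormedAddCommGroup E] [NormedSpace 𝕜 E]

/-- A normalized basis with its projections and coordinates. -/
structure NBasis (P : ℕ → E →L[𝕜] E) (CP : ℝ) (x : ℕ → E) (b : ℕ → E →ₗ[𝕜] 𝕜) : Prop where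
  norm_P : ∀ n, ‖P n‖ ≤ CP
  PP : ∀ n m v, P n (P m v) = P (min n m) v
  tend : ∀ v, Tendsto (fun n => P n v) atTop (𝓝 v)
  zero : ∀ v, P 0 v = 0
  norm_x : ∀ i, ‖x i‖ ≤ 1
  P_x : ∀ n i, P n (x i) = if i < n then x i else 0
  norm_b : ∀ i f, ‖b i f‖ ≤ 2 * CP * ‖f‖
  b_x : ∀ i f, b i f • x i = P (i + 1) f - P i f

theorem exists_nbasis [CompleteSpace E] {e : ℕ → E} (he : Pool.Agent.H14.NP.IsBasis 𝕜 e) :
    ∃ (P : ℕ → E →L[𝕜] E) (CP : ℝ) (x : ℕ → E) (b : ℕ → E →ₗ[𝕜] 𝕜), NBasis P CP x b := by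
  classical
  obtain ⟨P, C, hC0, hPC, hPb, hPt, hPs, hPP⟩ := he.exists_proj
  have hne : ∀ i, e i ≠ 0 := by
    intro i h0
    obtain ⟨a, -, hu⟩ := he 0
    have h1 : (fun _ => (0 : 𝕜)) = a := hu _ (by simp)
    have h2 : Pi.single i (1 : 𝕜) = a := by
      refine hu _ ?_
      have : (fun n => ∑ j ∈ range n, (Pi.single i (1 : 𝕜) : ℕ → 𝕜) j • e j) = fun _ => 0 := by
        funext n
        refine sum_eq_zero fun j _ => ?_
        by_cases hj : j = i
        · rw [hj, h0, smul_zero]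
        · rw [Pi.single_eq_of_ne hj, zero_smul]
      change Tendsto (fun n => ∑ j ∈ range n, (Pi.single i (1 : 𝕜) : ℕ → 𝕜) j • e j) atTop (𝓝 0)
      rw [this]
      exact tendsto_const_nhds
    have h3 := congrFun (h1.trans h2.symm) i
    rw [Pi.single_eq_same] at h3
    exact zero_ne_one h3
  have hpos : ∀ i, 0 < ‖e i‖ := fun i => norm_pos_iff.2 (hne i)
  have hdual : ∀ i, ∃ g : E →L[𝕜] 𝕜, ‖g‖ = 1 ∧ g (e i) = (‖e i‖ : 𝕜) := fun i =>
    exists_dual_vector 𝕜 (e i) (hpos i).ne'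
  choose g hg1 hg2 using hdual
  have hPdiff : ∀ i f, ‖P (i + 1) f - P i f‖ ≤ 2 * C * ‖f‖ := by
    intro i f
    refine (norm_sub_le _ _).trans ?_
    have h1 : ∀ j, ‖P j f‖ ≤ C * ‖f‖ := fun j =>
      ((P j).le_opNorm _).trans (mul_le_mul_of_nonneg_right (hPC j) (norm_nonneg _))
    linarith [h1 (i + 1), h1 i]
  refine ⟨P, C, fun i => ((‖e i‖ : 𝕜)⁻¹) • e i,
    fun i => (g i : E →ₗ[𝕜] 𝕜).comp ((P (i + 1) - P i : E →L[𝕜] E) : E →ₗ[𝕜] E),
    hPC, hPP, hPt, fun v => ?_, fun i => ?_, fun n i => ?_, fun i f => ?_, fun i f => ?_⟩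
  · obtain ⟨a, ha⟩ := hPs 0 v
    rw [ha, sum_range_zero]
  · rw [norm_smul, norm_inv, RCLike.norm_ofReal, abs_of_pos (hpos i), inv_mul_cancel₀ (hpos i).ne']
  · rw [map_smul, hPb]
    split_ifs
    · rfl
    · rw [smul_zero]
  · change ‖g i (P (i + 1) f - P i f)‖ ≤ _
    refine ((g i).le_opNorm _).trans ?_
    rw [hg1, one_mul]
    exact hPdiff i f
  · change g i (P (i + 1) f - P i f) • ((‖e i‖ : 𝕜)⁻¹) • e i = _
    obtain ⟨a, ha⟩ := hPs (i + 1) f
    have h1 : P i f = ∑ j ∈ range i, a j • e j := by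
      have h2 := hPP i (i + 1) f
      rw [min_eq_left (Nat.le_succ i)] at h2
      rw [← h2, ha, map_sum, sum_range_succ, map_smul, hPb, if_neg (lt_irrefl i), smul_zero,
        add_zero]
      exact sum_congr rfl fun j hj => by rw [map_smul, hPb, if_pos (mem_range.1 hj)]
    have h3 : P (i + 1) f - P i f = a i • e i := by
      rw [ha, h1, sum_range_succ, add_sub_cancel_left]
    rw [h3, map_smul, hg2, smul_smul, smul_eq_mul, mul_assoc, mul_inv_cancel₀, mul_one]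
    rw [Ne, RCLike.ofReal_eq_zero]
    exact (hpos i).ne'

section

variable {P : ℕ → E →L[𝕜] E} {CP : ℝ} {x : ℕ → E} {b : ℕ → E →ₗ[𝕜] 𝕜}

lemma NBasis.CP_nonneg (h : NBasis P CP x b) : 0 ≤ CP := (norm_nonneg _).trans (h.norm_P 0)

lemma NBasis.norm_sub (h : NBasis P CP x b) (i j : ℕ) : ‖P i - P j‖ ≤ 2 * CP := by
  refine (norm_sub_le _ _).trans ?_
  linarith [h.norm_P i, h.norm_P j]

lemma NBasis.sum (h : NBasis P CP x b) (k i : ℕ) (f : E) :
    ∑ i' ∈ range i, b (k + i') f • x (k + i') = P (k + i) f - P k f := by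
  induction i with
  | zero => rw [sum_range_zero, add_zero, sub_self]
  | succ i ih =>
    rw [sum_range_succ, ih, h.b_x]
    have : k + (i + 1) = k + i + 1 := rfl
    rw [this]
    abel

theorem NBasis.fblock (h : NBasis P CP x b) {k l : ℕ} (hkl : k < l) :
    FBlock P (2 * CP) k l (l - k) (fun i => x (k + i)) (fun i => b (k + i)) := by
  refine ⟨by omega, fun i _ => h.norm_x _, fun i hi => ?_, fun i _ => ?_, fun i _ f => h.norm_b _ f,
    fun i _ f => ?_, fun f => ?_⟩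
  · simp only [h.P_x]
    rw [if_pos (by omega)]
  · simp only [h.P_x]
    rw [if_neg (by omega)]
  · rw [h.sum k i f]
    refine le_trans ?_ (mul_le_mul_of_nonneg_right (h.norm_sub (k + i) k) (norm_nonneg f))
    rw [← _root_.sub_apply]
    exact (P (k + i) - P k).le_opNorm f
  · rw [h.sum k (l - k) f]
    congr 2
    congr 1
    omega

/-- the projections have finite rank -/
lemma NBasis.finite_rank (h : NBasis P CP x b) (n : ℕ) :
    ∃ V : Submodule 𝕜 E, FiniteDimensional 𝕜 V ∧ ∀ v, P n v ∈ V := by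
  refine ⟨Submodule.span 𝕜 (x '' (range n : Set ℕ)),
    FiniteDimensional.span_of_finite 𝕜 ((range n).finite_toSet.image x), fun v => ?_⟩
  have h1 := h.sum 0 n v
  rw [zero_add, h.zero, sub_zero] at h1
  rw [← h1]
  refine Submodule.sum_mem _ fun i hi => Submodule.smul_mem _ _ (Submodule.subset_span ?_)
  rw [zero_add]
  exact ⟨i, by rw [mem_coe]; exact hi, rfl⟩

/-- the projections factor through `ℓ_∞` -/
lemma NBasis.fac (h : NBasis P CP x b) (n : ℕ) : Fac (P n) (2 * CP) n := by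
  refine ⟨n, LinearMap.pi fun i : Fin n => b i, Fintype.linearCombination 𝕜 (fun i : Fin n => x i),
    fun f => ?_, fun v => ?_, fun f => ?_⟩
  · rw [pi_norm_le_iff_of_nonneg (mul_nonneg (by linarith [h.CP_nonneg]) (norm_nonneg _))]
    intro i
    rw [LinearMap.pi_apply]
    exact h.norm_b _ _
  · rw [Fintype.linearCombination_apply]
    refine (norm_sum_le _ _).trans ?_
    calc ∑ i : Fin n, ‖v i • x i‖ ≤ ∑ _i : Fin n, ‖v‖ := by
          refine sum_le_sum fun i _ => ?_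
          rw [norm_smul]
          calc ‖v i‖ * ‖x i‖ ≤ ‖v‖ * 1 :=
                mul_le_mul (norm_le_pi_norm v i) (h.norm_x _) (norm_nonneg _) (norm_nonneg _)
            _ = ‖v‖ := mul_one _
      _ = n * ‖v‖ := by rw [sum_const, card_univ, Fintype.card_fin, nsmul_eq_mul]
  · rw [Fintype.linearCombination_apply]
    simp only [LinearMap.pi_apply]
    have h1 := h.sum 0 n f
    rw [zero_add, h.zero, sub_zero] at h1
    rw [← h1, Finset.sum_range]
    simp only [zero_add]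

end

lemma Fac.add {G₁ G₂ : E →L[𝕜] E} {a₁ b₁ a₂ b₂ : ℝ} (h₁ : Fac G₁ a₁ b₁) (h₂ : Fac G₂ a₂ b₂)
    (ha₁ : 0 ≤ a₁) (ha₂ : 0 ≤ a₂) (hb₁ : 0 ≤ b₁) (hb₂ : 0 ≤ b₂) :
    Fac (G₁ + G₂) (a₁ + a₂) (b₁ + b₂) := by
  obtain ⟨N₁, α₁, β₁, hα₁, hβ₁, h₁⟩ := h₁
  obtain ⟨N₂, α₂, β₂, hα₂, hβ₂, h₂⟩ := h₂
  let α : E →ₗ[𝕜] (Fin N₁ ⊕ Fin N₂ → 𝕜) :=
    LinearMap.pi fun i => Sum.elim (fun i => (LinearMap.proj i).comp α₁)
      (fun i => (LinearMap.proj i).comp α₂) i
  let β : (Fin N₁ ⊕ Fin N₂ → 𝕜) →ₗ[𝕜] E :=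
    β₁.comp (LinearMap.funLeft 𝕜 𝕜 Sum.inl) + β₂.comp (LinearMap.funLeft 𝕜 𝕜 Sum.inr)
  refine fac_of (ι := Fin N₁ ⊕ Fin N₂) (by linarith) α β (fun f => ?_) (fun v => ?_) (fun f => ?_)
  · have h0 := norm_nonneg f
    rw [pi_norm_le_iff_of_nonneg (by positivity)]
    rintro (i | i)
    · change ‖α₁ f i‖ ≤ _
      refine (norm_le_pi_norm _ _).trans ((hα₁ f).trans ?_)
      nlinarith
    · change ‖α₂ f i‖ ≤ _
      refine (norm_le_pi_norm _ _).trans ((hα₂ f).trans ?_)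
      nlinarith
  · change ‖β₁ (LinearMap.funLeft 𝕜 𝕜 Sum.inl v) + β₂ (LinearMap.funLeft 𝕜 𝕜 Sum.inr v)‖ ≤ _
    have hv1 : ‖(LinearMap.funLeft 𝕜 𝕜 (Sum.inl : Fin N₁ → Fin N₁ ⊕ Fin N₂) v)‖ ≤ ‖v‖ := by
      rw [pi_norm_le_iff_of_nonneg (norm_nonneg _)]
      intro i
      exact norm_le_pi_norm v _
    have hv2 : ‖(LinearMap.funLeft 𝕜 𝕜 (Sum.inr : Fin N₂ → Fin N₁ ⊕ Fin N₂) v)‖ ≤ ‖v‖ := by
      rw [pi_norm_le_iff_of_nonneg (norm_nonneg _)]
      intro i
      exact norm_le_pi_norm v _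
    refine (norm_add_le _ _).trans ?_
    rw [add_mul]
    exact add_le_add ((hβ₁ _).trans (mul_le_mul_of_nonneg_left hv1 hb₁))
      ((hβ₂ _).trans (mul_le_mul_of_nonneg_left hv2 hb₂))
  · rw [_root_.add_apply, h₁, h₂]
    rfl

theorem NBasis.isLInfty [CompleteSpace E] {P : ℕ → E →L[𝕜] E} {CP : ℝ} {x : ℕ → E}
    {b : ℕ → E →ₗ[𝕜] 𝕜} (h : NBasis P CP x b) {k : ℕ} {a₂ b₂ : ℝ} (ha₂ : 0 ≤ a₂) (hb₂ : 0 ≤ b₂)
    (hfac : ∀ l, k < l → Fac (P l - P k) a₂ b₂) : IsLInfty 𝕜 E := by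
  classical
  have hCP := h.CP_nonneg
  refine ⟨(2 * CP + a₂) * (2 * (k + b₂)), fun F hF => ?_⟩
  obtain ⟨pr, hpr⟩ := Submodule.ClosedComplemented.of_finiteDimensional F
  -- choose `l`
  have hlim : Tendsto (fun l => ‖((1 : E →L[𝕜] E) - P l).comp (F.subtypeL.comp pr)‖) atTop (𝓝 0) := by
    let bF := Module.finBasis 𝕜 F
    have hcoord : ∀ i, Continuous (bF.coord i) := fun i => LinearMap.continuous_of_finiteDimensional _
    let c : Fin (Module.finrank 𝕜 F) → F →L[𝕜] 𝕜 := fun i => ⟨bF.coord i, hcoord i⟩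
    have h1 : ∀ l, ‖((1 : E →L[𝕜] E) - P l).comp (F.subtypeL.comp pr)‖ ≤
        ∑ i, ‖(c i).comp pr‖ * ‖(bF i : E) - P l (bF i : E)‖ := by
      intro l
      refine ContinuousLinearMap.opNorm_le_bound _
        (sum_nonneg fun _ _ => mul_nonneg (norm_nonneg _) (norm_nonneg _)) fun v => ?_
      have h2 : ((1 : E →L[𝕜] E) - P l).comp (F.subtypeL.comp pr) v =
          ∑ i, (c i).comp pr v • ((bF i : E) - P l (bF i : E)) := by
        have h3 : (pr v : E) = ∑ i, (c i).comp pr v • (bF i : E) := by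
          have h4 := bF.sum_repr (pr v)
          have h5 := congrArg (Submodule.subtype F) h4
          rw [map_sum] at h5
          exact h5.symm
        change (pr v : E) - P l (pr v : E) = _
        simp only [smul_sub, sum_sub_distrib]
        rw [← h3]
        congr 1
        rw [h3, map_sum]
        exact sum_congr rfl fun i _ => by rw [map_smul]
      rw [h2, sum_mul]
      refine (norm_sum_le _ _).trans (sum_le_sum fun i _ => ?_)
      rw [norm_smul]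
      calc ‖(c i).comp pr v‖ * ‖(bF i : E) - P l (bF i : E)‖
          ≤ (‖(c i).comp pr‖ * ‖v‖) * ‖(bF i : E) - P l (bF i : E)‖ :=
            mul_le_mul_of_nonneg_right (((c i).comp pr).le_opNorm v) (norm_nonneg _)
        _ = _ := by ring
    refine squeeze_zero (fun _ => norm_nonneg _) h1 ?_
    have h6 : Tendsto (fun l => ∑ i, ‖(c i).comp pr‖ * ‖(bF i : E) - P l (bF i : E)‖) atTop
        (𝓝 (∑ i, ‖(c i).comp pr‖ * ‖(bF i : E) - (bF i : E)‖)) := by
      refine tendsto_finsetSum _ fun i _ => ?_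
      exact (((h.tend (bF i : E)).const_sub _).norm).const_mul _
    simpa using h6
  obtain ⟨l, hl1, hl2⟩ := ((hlim.eventually (eventually_le_nhds
    (by norm_num : (0 : ℝ) < 1 / 2))).and (eventually_gt_atTop k)).exists
  set W := ((1 : E →L[𝕜] E) - P l).comp (F.subtypeL.comp pr) with hW
  let u := Units.oneSub W (lt_of_le_of_lt hl1 (by norm_num))
  have hu : (u : E →L[𝕜] E) = 1 - W := rfl
  let U : E →L[𝕜] E := (u⁻¹ : Units _)
  have hUW : ∀ v, U (v - W v) = v := by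
    intro v
    have h1 : (U * (1 - W)) = 1 := by rw [← hu]; exact u.inv_mul
    calc U (v - W v) = (U * (1 - W)) v := rfl
      _ = v := by rw [h1]; rfl
  have hWU : ∀ v, U v - W (U v) = v := by
    intro v
    have h1 : ((1 - W) * U) = 1 := by rw [← hu]; exact u.mul_inv
    calc U v - W (U v) = ((1 - W) * U) v := rfl
      _ = v := by rw [h1]; rfl
  have hUn : ∀ v, ‖U v‖ ≤ 2 * ‖v‖ := by
    intro v
    have h1 := hWU v
    have h2 : ‖W (U v)‖ ≤ 1 / 2 * ‖U v‖ :=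
      (W.le_opNorm _).trans (mul_le_mul_of_nonneg_right hl1 (norm_nonneg _))
    have h3 : ‖U v‖ ≤ ‖v‖ + ‖W (U v)‖ := by
      calc ‖U v‖ = ‖v + W (U v)‖ := congrArg norm (sub_eq_iff_eq_add.1 h1)
        _ ≤ _ := norm_add_le _ _
    linarith
  have hfl := (h.fac k).add (hfac l hl2) (by linarith) ha₂ (Nat.cast_nonneg k) hb₂
  obtain ⟨N, α, β, hα, hβ, hαβ⟩ := hfl
  have hPl : P k + (P l - P k) = P l := by abel
  rw [hPl] at hαβ
  let α' : F →ₗ[𝕜] (Fin N → 𝕜) := α.comp F.subtype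
  let β' : (Fin N → 𝕜) →ₗ[𝕜] E := (U : E →ₗ[𝕜] E).comp β
  refine ⟨N, α'.mkContinuous (2 * CP + a₂) (fun f => hα f), β'.mkContinuous (2 * (k + b₂))
    (fun v => ?_), ?_, fun f => ?_⟩
  · calc ‖β' v‖ = ‖U (β v)‖ := rfl
      _ ≤ 2 * ‖β v‖ := hUn _
      _ ≤ 2 * ((k + b₂) * ‖v‖) := mul_le_mul_of_nonneg_left (hβ v) (by norm_num)
      _ = _ := by ring
  · refine mul_le_mul (LinearMap.mkContinuous_norm_le _ (by linarith) _)
      (LinearMap.mkContinuous_norm_le _ (by positivity) _) (norm_nonneg _) (by linarith)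
  · change U (β (α (f : E))) = f
    rw [← hαβ]
    have h1 := hUW (f : E)
    have h2 : W (f : E) = (f : E) - P l (f : E) := by
      rw [hW]
      change (pr (f : E) : E) - P l (pr (f : E) : E) = _
      rw [hpr f]
    rw [h2, sub_sub_cancel] at h1
    exact h1

end Pool.Agent.H42.NP
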