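import Pool.Agent.H42.NP.Lift

/-!
# An operator acting diagonally on the lifted sequence
-/

set_option autoImplicit false

namespace Pool.Agent.H42.NP

open Finset

variable {𝕜 : Type*} [RCLike 𝕜]
variable {V : Type*} [NormedAddCommGroup V] [NormedSpace 𝕜 V]
variable {E : Type*} [NormedAddCommGroup E] [NormedSpace 𝕜 E]

/-- A finite-dimensional space `V` with a basis `w`, coordinates `cf` and a finite set `d`. -/
structure VData (M N : ℕ) (w : ℕ → V) (cf : ℕ → V →ₗ[𝕜] 𝕜) (d : ℕ → V) : Prop where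
  norm_w : ∀ j < M, ‖w j‖ ≤ 1
  norm_S : ∀ j < M, ∀ s < N, ‖∑ i ∈ range (j + 1), cf i (d s) • w i‖ ≤ 3
  norm_c : ∀ j s, ‖cf j (d s)‖ ≤ 4
  dual : ∀ i < M, ∀ j < M, cf j (w i) = if i = j then 1 else 0
  lift : ∀ z : V, ∃ β : ℕ → 𝕜, z = ∑ s ∈ range N, β s • d s ∧ ∑ s ∈ range N, ‖β s‖ ≤ 2 * ‖z‖

/-- The pieces of `E`. -/
structure EData (M N : ℕ) (sp : ℕ → Prop) [DecidablePred sp] (G Q : E →L[𝕜] E) (κ C₁ : ℝ)
    (vv : ℕ → E) (z : Om M N → E) (w : ℕ → V) : Prop where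
  norm_G : ‖G‖ ≤ κ
  norm_Q : ‖Q‖ ≤ κ
  lower : ∀ g : Om M N → 𝕜, ∑ ω, ‖g ω‖ ≤ ‖jl M N z g‖
  upper : ∀ ω, ‖z ω‖ ≤ C₁
  Qz : ∀ ω, Q (z ω) = z ω
  Gz : ∀ ω, G (z ω) = 0
  Gv : ∀ j < M, sp j → G (vv j) = vv j
  Qv : ∀ j < M, sp j → Q (vv j) = 0
  norm_v : ∀ α : ℕ → 𝕜, ‖vl M N sp vv α‖ ≤
    2 * ‖∑ j ∈ range M, (if sp j then ph N α j else 0) • w j‖

section

variable {M N : ℕ} {sp : ℕ → Prop} [DecidablePred sp] {w : ℕ → V} {cf : ℕ → V →ₗ[𝕜] 𝕜}
  {d : ℕ → V} {G Q : E →L[𝕜] E} {κ C₁ : ℝ} {vv : ℕ → E} {z : Om M N → E}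

lemma norm_jl_le (hz : ∀ ω, ‖z ω‖ ≤ C₁) (g : Om M N → 𝕜) :
    ‖jl M N z g‖ ≤ C₁ * ∑ ω, ‖g ω‖ := by
  rw [jl_apply, mul_sum]
  refine (norm_sum_le _ _).trans (sum_le_sum fun ω _ => ?_)
  rw [norm_smul, mul_comm]
  exact mul_le_mul_of_nonneg_right (hz ω) (norm_nonneg _)

lemma EData.Q_jl (hE : EData (𝕜 := 𝕜) M N sp G Q κ C₁ vv z w) (g : Om M N → 𝕜) :
    Q (jl M N z g) = jl M N z g := by
  rw [jl_apply, map_sum]
  exact sum_congr rfl fun ω _ => by rw [map_smul, hE.Qz]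

lemma EData.G_jl (hE : EData (𝕜 := 𝕜) M N sp G Q κ C₁ vv z w) (g : Om M N → 𝕜) :
    G (jl M N z g) = 0 := by
  rw [jl_apply, map_sum]
  exact sum_eq_zero fun ω _ => by rw [map_smul, hE.Gz, smul_zero]

lemma EData.Q_vl (hE : EData (𝕜 := 𝕜) M N sp G Q κ C₁ vv z w) (α : ℕ → 𝕜) :
    Q (vl M N sp vv α) = 0 := by
  rw [vl_apply, map_sum]
  refine sum_eq_zero fun j hj => ?_
  rw [map_smul]
  split_ifs with h
  · rw [hE.Qv j (mem_range.1 hj) h, smul_zero]
  · rw [zero_smul]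

lemma EData.G_vl (hE : EData (𝕜 := 𝕜) M N sp G Q κ C₁ vv z w) (α : ℕ → 𝕜) :
    G (vl M N sp vv α) = vl M N sp vv α := by
  rw [vl_apply, map_sum]
  refine sum_congr rfl fun j hj => ?_
  rw [map_smul]
  split_ifs with h
  · rw [hE.Gv j (mem_range.1 hj) h]
  · rw [zero_smul, zero_smul]

lemma nu_nonneg (c : ℕ → ℕ → 𝕜) (α : ℕ → 𝕜) : 0 ≤ nu M N sp c α :=
  sum_nonneg fun _ _ => norm_nonneg _

/-- the sequence is dominated by the `ℓ_1` norm -/
lemma norm_yl_le (hV : VData M N w cf d) (hE : EData (𝕜 := 𝕜) M N sp G Q κ C₁ vv z w)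
    (α : ℕ → 𝕜) : ‖yl M N sp (fun j s => cf j (d s)) vv z α‖ ≤
      (6 + C₁) * nu M N sp (fun j s => cf j (d s)) α := by
  rw [yl_apply, add_mul]
  refine (norm_add_le _ _).trans (add_le_add ?_ (norm_jl_le hE.upper _))
  refine (hE.norm_v α).trans ?_
  have := norm_Q_le (sp := sp) hV.norm_w hV.norm_S α
  linarith

/-- the sequence dominates the `ℓ_1` norm -/
lemma le_norm_yl (hE : EData (𝕜 := 𝕜) M N sp G Q κ C₁ vv z w) (c : ℕ → ℕ → 𝕜)
    (α : ℕ → 𝕜) : nu M N sp c α ≤ κ * ‖yl M N sp c vv z α‖ := by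
  have h1 : Q (yl M N sp c vv z α) = jl M N z (gv M N sp c α) := by
    rw [yl_apply, map_add, hE.Q_vl, hE.Q_jl, zero_add]
  calc nu M N sp c α ≤ ‖jl M N z (gv M N sp c α)‖ := hE.lower _
    _ = ‖Q (yl M N sp c vv z α)‖ := by rw [h1]
    _ ≤ ‖Q‖ * ‖yl M N sp c vv z α‖ := Q.le_opNorm _
    _ ≤ κ * ‖yl M N sp c vv z α‖ := mul_le_mul_of_nonneg_right hE.norm_Q (norm_nonneg _)

/-- Grunblum's condition for the sequence -/
theorem yl_grunblum (hV : VData M N w cf d) (hE : EData (𝕜 := 𝕜) M N sp G Q κ C₁ vv z w)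
    (hC₁ : 0 ≤ C₁) (α : ℕ → 𝕜) (r : ℕ) :
    ‖yl M N sp (fun j s => cf j (d s)) vv z (cut r α)‖ ≤
      (6 + C₁) * 5 * κ * ‖yl M N sp (fun j s => cf j (d s)) vv z α‖ := by
  have h1 := norm_yl_le (sp := sp) hV hE (cut r α)
  have h2 := nu_cut (M := M) (N := N) (sp := sp) (c := fun j s => cf j (d s)) hV.norm_c α r
  have h3 := le_norm_yl hE (fun j s => cf j (d s)) α
  have h4 : 0 ≤ nu M N sp (fun j s => cf j (d s)) (cut r α) := nu_nonneg _ _
  calc ‖yl M N sp (fun j s => cf j (d s)) vv z (cut r α)‖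
      ≤ (6 + C₁) * nu M N sp (fun j s => cf j (d s)) (cut r α) := h1
    _ ≤ (6 + C₁) * (5 * (κ * ‖yl M N sp (fun j s => cf j (d s)) vv z α‖)) := by
        refine mul_le_mul_of_nonneg_left (h2.trans ?_) (by linarith)
        linarith
    _ = _ := by ring

/-- coefficients of a lift of a vector of `V` -/
def la (N : ℕ) (σ β : ℕ → 𝕜) : ℕ → 𝕜 := fun i =>
  if i % (N + 1) = 0 then σ (i / (N + 1)) else β (i % (N + 1) - 1)

omit [RCLike 𝕜] in
lemma ph_la (σ β : ℕ → 𝕜) (j : ℕ) : ph N (la N σ β) j = σ j := by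
  unfold ph la
  rw [Nat.mul_mod_left, if_pos rfl, Nat.mul_div_cancel _ (Nat.succ_pos N)]

lemma co_la (σ β : ℕ → 𝕜) {s : ℕ} (hs : s < N) (j : ℕ) :
    co M N (la N σ β) s j = if j < M then β s else 0 := by
  unfold co la
  have h1 : (j * (N + 1) + s + 1) % (N + 1) = s + 1 := by
    rw [add_assoc, add_comm, Nat.add_mul_mod_self_right, Nat.mod_eq_of_lt (by omega)]
  rw [h1, if_neg (Nat.succ_ne_zero s), Nat.add_sub_cancel]

lemma va_la (σ β : ℕ → 𝕜) {s : ℕ} (hs : s < N) : va M N (la N σ β) s ≤ ‖β s‖ := by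
  unfold va
  have h3 : ∀ j ∈ range M, ‖co M N (la N σ β) s j - co M N (la N σ β) s (j + 1)‖ ≤
      if j = M - 1 then ‖β s‖ else 0 := by
    intro j hj
    rw [mem_range] at hj
    rw [co_la σ β hs, co_la σ β hs, if_pos hj]
    by_cases h : j = M - 1
    · rw [if_pos h, if_neg (by omega), sub_zero]
    · rw [if_neg h, if_pos (by omega), sub_self, norm_zero]
  refine (sum_le_sum h3).trans ?_
  rw [sum_ite_eq']
  split_ifs
  · exact le_rfl
  · exact norm_nonneg _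

lemma nu_la (c : ℕ → ℕ → 𝕜) (σ β : ℕ → 𝕜) (hσ : ∀ j < M, ¬ sp j → σ j = 0)
    (hβ : ∀ j < M, (if sp j then σ j else 0) = ∑ s ∈ range N, c j s * β s) :
    nu M N sp c (la N σ β) ≤ ∑ s ∈ range N, ‖β s‖ := by
  rw [nu_eq]
  have h1 : ∑ j ∈ range M, ‖uu M N sp c (la N σ β) j‖ = 0 := by
    refine sum_eq_zero fun j hj => ?_
    rw [mem_range] at hj
    unfold uu
    rw [ph_la, hβ j hj, norm_eq_zero, sub_eq_zero]
    exact sum_congr rfl fun s hs => by rw [co_la σ β (mem_range.1 hs), if_pos hj]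
  have h2 : ∑ j ∈ range M, ‖zz N sp (la N σ β) j‖ = 0 := by
    refine sum_eq_zero fun j hj => ?_
    rw [mem_range] at hj
    unfold zz
    split_ifs with h
    · exact norm_zero
    · rw [ph_la, hσ j hj h, norm_zero]
  rw [h1, h2, add_zero, add_zero]
  exact sum_le_sum fun s hs => va_la σ β (mem_range.1 hs)

lemma ph_rs (A : Finset ℕ) (α : ℕ → 𝕜) (j : ℕ) :
    ph N (rs A α) j = if j * (N + 1) ∈ A then ph N α j else 0 := rfl

/-- the vector of `V` with coefficients `σ` along the special basis vectors -/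
def io (M : ℕ) (sp : ℕ → Prop) [DecidablePred sp] (w : ℕ → V) (σ : ℕ → 𝕜) : V :=
  ∑ j ∈ range M, (if sp j then σ j else 0) • w j

lemma VData.cf_io (hV : VData M N w cf d) (σ : ℕ → 𝕜) {j : ℕ} (hj : j < M) :
    cf j (io M sp w σ) = if sp j then σ j else 0 := by
  unfold io
  rw [map_sum, Finset.sum_eq_single j]
  · rw [map_smul, hV.dual j hj j hj, if_pos rfl, smul_eq_mul, mul_one]
  · intro i hi hij
    rw [map_smul, hV.dual i (mem_range.1 hi) j hj, if_neg hij, smul_zero]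
  · intro h
    exact absurd (mem_range.2 hj) h

/-- coefficients of a lift of `io σ` -/
lemma VData.exists_lift (hV : VData M N w cf d) (σ : ℕ → 𝕜) : ∃ α : ℕ → 𝕜,
    (∀ j, sp j → ph N α j = σ j) ∧
    nu M N sp (fun j s => cf j (d s)) α ≤ 2 * ‖io M sp w σ‖ := by
  obtain ⟨β, hβ1, hβ2⟩ := hV.lift (io M sp w σ)
  refine ⟨la N (fun j => if sp j then σ j else 0) β, fun j hj => ?_, ?_⟩
  · rw [ph_la, if_pos hj]
  · refine (nu_la _ _ _ (fun j _ h => if_neg h) fun j hj => ?_).trans hβ2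
    have h1 := hV.cf_io (sp := sp) σ hj
    rw [hβ1, map_sum] at h1
    have h2 : ∑ s ∈ range N, cf j (d s) * β s = if sp j then σ j else 0 := by
      rw [← h1]
      exact sum_congr rfl fun s _ => by rw [map_smul, smul_eq_mul, mul_comm]
    rw [h2]
    split_ifs <;> rfl

/-- (I): the restriction to `A` is bounded on the special vectors -/
theorem bound_one (hV : VData M N w cf d) (hE : EData (𝕜 := 𝕜) M N sp G Q κ C₁ vv z w)
    (hC₁ : 0 ≤ C₁) {T : E →L[𝕜] E} {K : ℝ} (hTK : ‖T‖ ≤ K) {A : Finset ℕ}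
    (hT : ∀ i < M * (N + 1),
      T (yl M N sp (fun j s => cf j (d s)) vv z (Pi.single i (1 : 𝕜))) =
      if i ∈ A then yl M N sp (fun j s => cf j (d s)) vv z (Pi.single i (1 : 𝕜)) else 0)
    (σ : ℕ → 𝕜) :
    ‖io M sp w (fun j => if j * (N + 1) ∈ A then σ j else 0)‖ ≤
      6 * κ * K * (6 + C₁) * ‖io M sp w σ‖ := by
  obtain ⟨α, hα1, hα2⟩ := hV.exists_lift (sp := sp) σ
  have hκ : 0 ≤ κ := (norm_nonneg _).trans hE.norm_G
  have hK : 0 ≤ K := (norm_nonneg _).trans hTK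
  have h1 : io M sp w (fun j => if j * (N + 1) ∈ A then σ j else 0) =
      ∑ j ∈ range M, (if sp j then ph N (rs A α) j else 0) • w j := by
    refine sum_congr rfl fun j _ => ?_
    by_cases h : sp j
    · rw [if_pos h, if_pos h, ph_rs, hα1 j h]
    · rw [if_neg h, if_neg h]
  rw [h1]
  have h2 := norm_Q_le (sp := sp) hV.norm_w hV.norm_S (rs A α)
  have h3 := le_norm_yl hE (fun j s => cf j (d s)) (rs A α)
  rw [← T_yl hT] at h3
  have h4 : ‖T (yl M N sp (fun j s => cf j (d s)) vv z α)‖ ≤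
      K * ‖yl M N sp (fun j s => cf j (d s)) vv z α‖ :=
    (T.le_opNorm _).trans (mul_le_mul_of_nonneg_right hTK (norm_nonneg _))
  have h5 := norm_yl_le (sp := sp) hV hE α
  calc _ ≤ 3 * nu M N sp (fun j s => cf j (d s)) (rs A α) := h2
    _ ≤ 3 * (κ * (K * ((6 + C₁) * (2 * ‖io M sp w σ‖)))) := by
        refine mul_le_mul_of_nonneg_left (h3.trans (mul_le_mul_of_nonneg_left (h4.trans
          (mul_le_mul_of_nonneg_left (h5.trans
          (mul_le_mul_of_nonneg_left hα2 (by linarith))) hK)) hκ)) (by norm_num)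
    _ = _ := by ring

/-- the operator induced on `V` -/
noncomputable def tp (M N : ℕ) (cf : ℕ → V →ₗ[𝕜] 𝕜) (G T : E →L[𝕜] E) (z : Om M N → E) :
    V →ₗ[𝕜] E :=
  ∑ j : Fin M, (cf j).smulRight (G (T (z (Sum.inr (Sum.inl j)))))

lemma tp_apply (x : V) : ∀ T : E →L[𝕜] E, tp M N cf G T z x =
    ∑ j : Fin M, cf j x • G (T (z (Sum.inr (Sum.inl j)))) := by
  intro T
  unfold tp
  rw [LinearMap.sum_apply]
  exact sum_congr rfl fun j _ => LinearMap.smulRight_apply _ _ _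

lemma jl_gv (c : ℕ → ℕ → 𝕜) (α : ℕ → 𝕜) : jl M N z (gv M N sp c α) =
    ∑ s : Fin N, ∑ j : Fin M, (co M N α s j - co M N α s (j + 1)) • z (Sum.inl (s, j)) +
    (∑ j : Fin M, uu M N sp c α j • z (Sum.inr (Sum.inl j)) +
      ∑ j : Fin M, zz N sp α j • z (Sum.inr (Sum.inr j))) := by
  rw [jl_apply, Fintype.sum_sum_type, Fintype.sum_sum_type, Fintype.sum_prod_type]
  rfl

/-- (II): bound of the induced operator -/
theorem bound_two (hV : VData M N w cf d) (hE : EData (𝕜 := 𝕜) M N sp G Q κ C₁ vv z w)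
    (hC₁ : 0 ≤ C₁) {T : E →L[𝕜] E} {K : ℝ} (hTK : ‖T‖ ≤ K) {A : Finset ℕ}
    (hT : ∀ i < M * (N + 1),
      T (yl M N sp (fun j s => cf j (d s)) vv z (Pi.single i (1 : 𝕜))) =
      if i ∈ A then yl M N sp (fun j s => cf j (d s)) vv z (Pi.single i (1 : 𝕜)) else 0)
    (x : V) : ‖tp M N cf G T z x‖ ≤ 2 * κ * K * C₁ * ‖x‖ := by
  obtain ⟨β, hβ1, hβ2⟩ := hV.lift x
  have hκ : 0 ≤ κ := (norm_nonneg _).trans hE.norm_G
  have hK : 0 ≤ K := (norm_nonneg _).trans hTK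
  have hph : ∀ j, ph N (la N (fun _ => (0 : 𝕜)) β) j = 0 := fun j => ph_la _ _ _
  have hvl : ∀ α : ℕ → 𝕜, (∀ j, ph N α j = 0) → vl M N sp vv α = 0 := by
    intro α hα
    rw [vl_apply]
    refine sum_eq_zero fun j _ => ?_
    rw [hα, ite_self, zero_smul]
  have h1 := T_yl hT (la N (fun _ => (0 : 𝕜)) β)
  rw [yl_apply, yl_apply, hvl _ hph, hvl _ (fun j => by rw [ph_rs, hph, ite_self]), zero_add,
    zero_add] at h1
  have h2 : G (T (jl M N z (gv M N sp (fun j s => cf j (d s)) (la N (fun _ => (0 : 𝕜)) β)))) =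
      0 := by
    rw [h1, hE.G_jl]
  rw [jl_gv] at h2
  set pe := ∑ s : Fin N, ∑ j : Fin M, (co M N (la N (fun _ => (0 : 𝕜)) β) s j -
    co M N (la N (fun _ => (0 : 𝕜)) β) s (j + 1)) • z (Sum.inl (s, j)) with hpe
  have hzz : ∑ j : Fin M, zz N sp (la N (fun _ => (0 : 𝕜)) β) j • z (Sum.inr (Sum.inr j)) =
      0 := by
    refine sum_eq_zero fun j _ => ?_
    unfold zz
    rw [hph, ite_self, zero_smul]
  have huu : ∀ j : Fin M, uu M N sp (fun j s => cf j (d s)) (la N (fun _ => (0 : 𝕜)) β) j =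
      - cf j x := by
    intro j
    unfold uu
    rw [hph, ite_self, zero_sub, neg_inj]
    conv_rhs => rw [hβ1]
    rw [map_sum]
    refine sum_congr rfl fun s hs => ?_
    rw [co_la _ β (mem_range.1 hs), if_pos j.2, map_smul, smul_eq_mul, mul_comm]
  rw [hzz, add_zero, map_add, map_add] at h2
  have h3 : G (T (∑ j : Fin M, uu M N sp (fun j s => cf j (d s))
      (la N (fun _ => (0 : 𝕜)) β) j • z (Sum.inr (Sum.inl j)))) = - tp M N cf G T z x := by
    rw [tp_apply, map_sum, map_sum, ← sum_neg_distrib]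
    refine sum_congr rfl fun j _ => ?_
    rw [huu, neg_smul, map_neg, map_neg, map_smul, map_smul]
  rw [h3, ← sub_eq_add_neg, sub_eq_zero] at h2
  rw [← h2]
  have h4 : ‖pe‖ ≤ C₁ * (2 * ‖x‖) := by
    refine le_trans ?_ (mul_le_mul_of_nonneg_left hβ2 hC₁)
    rw [hpe, mul_sum, Finset.sum_range]
    refine (norm_sum_le _ _).trans (sum_le_sum fun s _ => ?_)
    refine (norm_sum_le _ _).trans ?_
    refine le_trans ?_ (mul_le_mul_of_nonneg_left
      (va_la (M := M) (fun _ => (0 : 𝕜)) β s.2) hC₁)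
    unfold va
    rw [mul_sum, Finset.sum_range]
    refine sum_le_sum fun j _ => ?_
    rw [norm_smul, mul_comm]
    exact mul_le_mul_of_nonneg_right (hE.upper _) (norm_nonneg _)
  calc ‖G (T pe)‖ ≤ ‖G‖ * (‖T‖ * ‖pe‖) :=
        (G.le_opNorm _).trans (mul_le_mul_of_nonneg_left (T.le_opNorm _) (norm_nonneg _))
    _ ≤ κ * (K * (C₁ * (2 * ‖x‖))) := by
        refine mul_le_mul hE.norm_G (mul_le_mul hTK h4 (norm_nonneg _) hK) (by positivity) hκ
    _ = _ := by ring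

/-- (II): value of the induced operator on the special vectors -/
theorem tp_io (hV : VData M N w cf d) (hE : EData (𝕜 := 𝕜) M N sp G Q κ C₁ vv z w)
    {T : E →L[𝕜] E} {A : Finset ℕ}
    (hT : ∀ i < M * (N + 1),
      T (yl M N sp (fun j s => cf j (d s)) vv z (Pi.single i (1 : 𝕜))) =
      if i ∈ A then yl M N sp (fun j s => cf j (d s)) vv z (Pi.single i (1 : 𝕜)) else 0)
    (σ : ℕ → 𝕜) : tp M N cf G T z (io M sp w σ) =
      io M sp vv (fun j => if j * (N + 1) ∈ A then σ j else 0) -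
        G (T (io M sp vv σ)) := by
  have h1 := T_yl hT (la N (fun j => if sp j then σ j else 0) (fun _ => (0 : 𝕜)))
  have hvl : vl M N sp vv (la N (fun j => if sp j then σ j else 0) (fun _ => (0 : 𝕜))) =
      io M sp vv σ := by
    rw [vl_apply]
    refine sum_congr rfl fun j _ => ?_
    rw [ph_la]
    by_cases h : sp j
    · rw [if_pos h, if_pos h]
    · rw [if_neg h, if_neg h]
  have hvl2 : vl M N sp vv (rs A (la N (fun j => if sp j then σ j else 0) (fun _ => (0 : 𝕜)))) =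
      io M sp vv (fun j => if j * (N + 1) ∈ A then σ j else 0) := by
    rw [vl_apply]
    refine sum_congr rfl fun j _ => ?_
    rw [ph_rs, ph_la]
    by_cases h : sp j
    · rw [if_pos h, if_pos h, if_pos h]
    · rw [if_neg h, if_neg h]
  have h2 := congrArg G h1
  rw [yl_apply, yl_apply, hvl2, map_add, map_add, map_add, hE.G_jl, add_zero, ← hvl2, hE.G_vl,
    hvl2, hvl] at h2
  rw [← h2, add_sub_cancel_left, jl_gv, tp_apply]
  have hco : ∀ (s : Fin N) j, co M N (la N (fun j => if sp j then σ j else 0)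
      (fun _ => (0 : 𝕜))) s j = 0 := by
    intro s j
    rw [co_la _ _ s.2, ite_self]
  have e1 : ∑ s : Fin N, ∑ j : Fin M, (co M N (la N (fun j => if sp j then σ j else 0)
      (fun _ => (0 : 𝕜))) s j - co M N (la N (fun j => if sp j then σ j else 0)
      (fun _ => (0 : 𝕜))) s (j + 1)) • z (Sum.inl (s, j)) = 0 := by
    refine sum_eq_zero fun s _ => sum_eq_zero fun j _ => ?_
    rw [hco, hco, sub_self, zero_smul]
  have e2 : ∑ j : Fin M, zz N sp (la N (fun j => if sp j then σ j else 0)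
      (fun _ => (0 : 𝕜))) j • z (Sum.inr (Sum.inr j)) = 0 := by
    refine sum_eq_zero fun j _ => ?_
    unfold zz
    rw [ph_la]
    by_cases h : sp j
    · rw [if_pos h, zero_smul]
    · rw [if_neg h, if_neg h, zero_smul]
  rw [e1, e2, zero_add, add_zero, map_sum, map_sum]
  refine sum_congr rfl fun j _ => ?_
  rw [hV.cf_io σ j.2, map_smul, map_smul]
  congr 1
  unfold uu
  rw [ph_la]
  have e3 : ∑ s ∈ range N, cf j (d s) * co M N (la N (fun j => if sp j then σ j else 0)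
      (fun _ => (0 : 𝕜))) s j = 0 := by
    refine sum_eq_zero fun s hs => ?_
    rw [co_la _ _ (mem_range.1 hs), ite_self, mul_zero]
  rw [e3, sub_zero]
  by_cases h : sp j
  · rw [if_pos h, if_pos h]
  · rw [if_neg h, if_neg h]

end

end Pool.Agent.H42.NP
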