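import Pool.Agent.H42.NP.Core

/-!
# The unit ball of `ℓ_∞` is the convex hull of the sign vectors
-/

set_option autoImplicit false

namespace Pool.Agent.H42.NP

open Finset

/-- sign of a Boolean -/
def sgb (b : Bool) : ℝ := if b then 1 else -1

lemma exists_cube {X : Type*} [Fintype X] [DecidableEq X] (x : X → ℝ) (hx : ∀ i, |x i| ≤ 1) :
    ∃ w : (X → Bool) → ℝ, (∀ ε, 0 ≤ w ε) ∧ ∑ ε, w ε = 1 ∧ ∀ i, x i = ∑ ε, w ε * sgb (ε i) := by
  have hsum : ∀ g : X → Bool → ℝ, ∏ i, ∑ b, g i b = ∑ ε : X → Bool, ∏ i, g i (ε i) :=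
    fun g => Fintype.prod_sum g
  refine ⟨fun ε => ∏ i, (1 + sgb (ε i) * x i) / 2, fun ε => ?_, ?_, fun i => ?_⟩
  · refine Finset.prod_nonneg fun i _ => ?_
    have h := abs_le.1 (hx i)
    unfold sgb
    split_ifs <;> linarith [h.1, h.2]
  · rw [← hsum (fun i b => (1 + sgb b * x i) / 2)]
    refine Finset.prod_eq_one fun i _ => ?_
    rw [Fintype.sum_bool]
    unfold sgb
    norm_num
    ring
  · have h1 : ∀ ε : X → Bool, (∏ k, (1 + sgb (ε k) * x k) / 2) * sgb (ε i) =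
        ∏ k, ((1 + sgb (ε k) * x k) / 2 * (if k = i then sgb (ε k) else 1)) := by
      intro ε
      rw [Finset.prod_mul_distrib, Finset.prod_ite_eq']
      simp
    rw [Finset.sum_congr rfl fun ε _ => h1 ε,
      ← hsum (fun k b => (1 + sgb b * x k) / 2 * (if k = i then sgb b else 1)),
      Finset.prod_eq_single i]
    · rw [Fintype.sum_bool]
      unfold sgb
      norm_num
      ring
    · intro k _ hk
      rw [Fintype.sum_bool]
      simp only [if_neg hk]
      unfold sgb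
      norm_num
      ring
    · intro h
      exact absurd (mem_univ i) h

variable {𝕜 : Type*} [RCLike 𝕜]

/-- sign vectors -/
noncomputable def sgv (𝕜 : Type*) [RCLike 𝕜] {X : Type*} (ε : X → Bool) : X → 𝕜 :=
  fun i => ((sgb (ε i) : ℝ) : 𝕜)

lemma norm_sgv_le {X : Type*} [Fintype X] (ε : X → Bool) : ‖sgv 𝕜 ε‖ ≤ 1 := by
  rw [pi_norm_le_iff_of_nonneg zero_le_one]
  intro i
  unfold sgv sgb
  split_ifs <;> simp

lemma norm_I_le (𝕜 : Type*) [RCLike 𝕜] : ‖(RCLike.I : 𝕜)‖ ≤ 1 := by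
  rcases RCLike.I_mul_I (K := 𝕜) with h | h
  · rw [h, norm_zero]
    exact zero_le_one
  · have h1 := congrArg (fun x : 𝕜 => ‖x‖) h
    simp only [norm_mul, norm_neg, norm_one] at h1
    nlinarith [norm_nonneg (RCLike.I : 𝕜)]

lemma exists_real_comb {X : Type*} [Fintype X] [DecidableEq X] (x : X → ℝ) {R : ℝ} (hR : 0 ≤ R)
    (hx : ∀ i, |x i| ≤ R) :
    ∃ w : (X → Bool) → ℝ, (∀ ε, 0 ≤ w ε) ∧ ∑ ε, w ε = R ∧ ∀ i, x i = ∑ ε, w ε * sgb (ε i) := by
  rcases hR.eq_or_lt with h | h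
  · refine ⟨fun _ => 0, fun _ => le_rfl, ?_, fun i => ?_⟩
    · rw [Finset.sum_const_zero, h]
    · have := hx i
      rw [← h] at this
      rw [abs_nonpos_iff.1 this]
      simp
  · obtain ⟨w, h0, h1, h2⟩ := exists_cube (fun i => x i / R) (fun i => by
      rw [abs_div, abs_of_pos h, div_le_one h]
      exact hx i)
    refine ⟨fun ε => R * w ε, fun ε => mul_nonneg h.le (h0 ε), ?_, fun i => ?_⟩
    · rw [← Finset.mul_sum, h1, mul_one]
    · have h3 := h2 i
      rw [div_eq_iff h.ne'] at h3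
      rw [h3, Finset.sum_mul]
      exact Finset.sum_congr rfl fun ε _ => by ring

/-- every vector of `ℓ_∞` is a combination of sign vectors -/
theorem exists_comb {X : Type*} [Fintype X] [DecidableEq X] (z : X → 𝕜) :
    ∃ β : (X → Bool) → 𝕜, z = ∑ ε, β ε • sgv 𝕜 ε ∧ ∑ ε, ‖β ε‖ ≤ 2 * ‖z‖ := by
  obtain ⟨a, a0, a1, a2⟩ := exists_real_comb (fun i => RCLike.re (z i)) (norm_nonneg z)
    (fun i => (RCLike.abs_re_le_norm _).trans (norm_le_pi_norm z i))
  obtain ⟨b, b0, b1, b2⟩ := exists_real_comb (fun i => RCLike.im (z i)) (norm_nonneg z)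
    (fun i => (RCLike.abs_im_le_norm _).trans (norm_le_pi_norm z i))
  refine ⟨fun ε => (a ε : 𝕜) + (b ε : 𝕜) * RCLike.I, ?_, ?_⟩
  · funext i
    rw [Finset.sum_apply]
    conv_lhs => rw [← RCLike.re_add_im (z i)]
    rw [a2 i, b2 i]
    push_cast
    rw [Finset.sum_mul, ← Finset.sum_add_distrib]
    refine Finset.sum_congr rfl fun ε _ => ?_
    rw [Pi.smul_apply, smul_eq_mul]
    unfold sgv
    ring
  · calc ∑ ε, ‖(a ε : 𝕜) + (b ε : 𝕜) * RCLike.I‖ ≤ ∑ ε, (a ε + b ε) := by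
          refine Finset.sum_le_sum fun ε _ => (norm_add_le _ _).trans ?_
          rw [norm_mul, RCLike.norm_ofReal, RCLike.norm_ofReal, abs_of_nonneg (a0 ε),
            abs_of_nonneg (b0 ε)]
          refine add_le_add le_rfl (mul_le_of_le_one_right (b0 ε) ?_)
          exact norm_I_le 𝕜
      _ = 2 * ‖z‖ := by
          rw [Finset.sum_add_distrib, a1, b1]
          ring

end Pool.Agent.H42.NP
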