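import Mathlib

/-!
# Containing the `ℓ_1^n` uniformly, and `ℒ_∞`-spaces
-/

set_option autoImplicit false

namespace Pool.Agent.H42.NP

/-- `E` contains the spaces `ℓ_1^n` uniformly: for some `C` and every `n` there are vectors
`z_1, ..., z_n` of norm at most `C` with `∑ |a_i| ≤ ‖∑ a_i z_i‖` for all scalars `a_i`. -/
def ContainsEllOne (𝕜 : Type*) [RCLike 𝕜] (E : Type*) [NormedAddCommGroup E] [NormedSpace 𝕜 E] :
    Prop :=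
  ∃ C : ℝ, ∀ n : ℕ, ∃ z : Fin n → E, (∀ i, ‖z i‖ ≤ C) ∧
    ∀ a : Fin n → 𝕜, ∑ i, ‖a i‖ ≤ ‖∑ i, a i • z i‖

/-- `E` is an `ℒ_∞`-space: for some `Λ`, the inclusion of every finite-dimensional subspace `F`
of `E` is a product `β ∘ α` of operators `α : F → ℓ_∞^N`, `β : ℓ_∞^N → E` (for some `N`) with
`‖α‖ ‖β‖ ≤ Λ`. The norm of `Fin N → 𝕜` is the maximum norm. -/
def IsLInfty (𝕜 : Type*) [RCLike 𝕜] (E : Type*) [NormedAddCommGroup E] [NormedSpace 𝕜 E] : Prop :=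
  ∃ Λ : ℝ, ∀ F : Submodule 𝕜 E, FiniteDimensional 𝕜 F →
    ∃ (N : ℕ) (α : F →L[𝕜] (Fin N → 𝕜)) (β : (Fin N → 𝕜) →L[𝕜] E),
      ‖α‖ * ‖β‖ ≤ Λ ∧ ∀ f : F, β (α f) = f

end Pool.Agent.H42.NP
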