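import Pool.Agent.H42.NP.Coord
import Pool.Agent.H42.NP.Glue

/-!
# Spaces which are not B-convex and not `ℒ_∞`-spaces have property (NP)
-/

set_option autoImplicit false

namespace Pool.Agent.H42.NP

open Finset Filter Topology
open Pool.Agent.H14.NP (IsBasis PropNP)

variable {𝕜 : Type*} [RCLike 𝕜]
variable {E : Type*} [NormedAddCommGroup E] [NormedSpace 𝕜 E]

theorem propNP_of_ellOne [CompleteSpace E] (hE : ∃ e : ℕ → E, IsBasis 𝕜 e)
    (h1 : ContainsEllOne 𝕜 E) (h2 : ¬ IsLInfty 𝕜 E) : PropNP 𝕜 E := by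
  classical
  obtain ⟨e, he⟩ := hE
  obtain ⟨P, CP, x, b, hb⟩ := exists_nbasis he
  obtain ⟨C₁, hC₁, hT⟩ := h1.tail P CP hb.norm_P hb.PP hb.tend hb.finite_rank
  refine propNP_of_special P CP hb.norm_P hb.PP ((6 + C₁) * 5 * (2 * CP)) fun K k => ?_
  have hCP := hb.CP_nonneg
  set K' := max K 0 with hK'
  have hK0 : 0 ≤ K' := le_max_right _ _
  have hKK : K ≤ K' := le_max_left _ _
  obtain ⟨l, hkl, hfac⟩ : ∃ l, k < l ∧
      ¬ Fac (P l - P k) (2 * (2 * CP)) (2 * (2 * CP) * K' * C₁) := by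
    by_contra hcon
    push Not at hcon
    exact h2 (hb.isLInfty (by positivity) (by positivity) hcon)
  obtain ⟨l', R, h, Sp, y, g1, g2, g3, g4, g5, g6, g7⟩ := block_main (hb.fblock hkl) hkl.le
    hb.norm_sub hb.PP hC₁ hT hK0 hfac
  exact ⟨l', R, h, Sp, y, g1, g2, g3, g4, g5, g6, fun A hA hAc T hTA =>
    hKK.trans (g7 A hA hAc T hTA)⟩

end Pool.Agent.H42.NP
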