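import Pool.Agent.H42.NP.VConc2

/-!
# Order forcing
-/

set_option autoImplicit false

namespace Pool.Agent.H42.NP

open Finset

variable {𝕜 : Type*} [RCLike 𝕜]

/-- the test vector: `+1` at `p ℓ` and `-1` at `p' ℓ` in the intervals `ℓ ∈ S` -/
def tv (𝕜 : Type*) [RCLike 𝕜] (B : ℕ) (S : Finset ℕ) (p p' : ℕ → ℕ) (k : ℕ) : 𝕜 :=
  if k / B ∈ S then (if k % B = p (k / B) then 1 else 0) - (if k % B = p' (k / B) then 1 else 0)
  else 0

lemma tv_apply {B : ℕ} (S : Finset ℕ) (p p' : ℕ → ℕ) (l : ℕ) {i : ℕ} (hi : i < B) :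
    tv 𝕜 B S p p' (l * B + i) = if l ∈ S then (if i = p l then 1 else 0) -
      (if i = p' l then 1 else 0) else 0 := by
  unfold tv
  have h1 : (l * B + i) / B = l := by
    rw [mul_comm, Nat.mul_add_div (by omega), Nat.div_eq_of_lt hi, add_zero]
  have h2 : (l * B + i) % B = i := by
    rw [mul_comm, Nat.mul_add_mod, Nat.mod_eq_of_lt hi]
  rw [h1, h2]

lemma sum_delta (b p : ℕ) : ∑ i ∈ range b, (if i = p then (1 : 𝕜) else 0) =
    if p < b then 1 else 0 := by
  rw [Finset.sum_ite_eq']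
  simp only [mem_range]

lemma tv_partial {B : ℕ} (hB : 0 < B) {S : Finset ℕ} {p p' : ℕ → ℕ}
    (hp : ∀ l ∈ S, p l < B) (hp' : ∀ l ∈ S, p' l < B) (t : ℕ) :
    ‖∑ k ∈ range t, tv 𝕜 B S p p' k‖ ≤ 1 := by
  obtain ⟨a, b, hb, rfl⟩ : ∃ a b, b < B ∧ t = a * B + b :=
    ⟨t / B, t % B, Nat.mod_lt _ hB, (Nat.div_add_mod' t B).symm⟩
  rw [sum_blocks']
  have h1 : ∀ l ∈ range a, ∑ r ∈ range B, tv 𝕜 B S p p' (l * B + r) = 0 := by
    intro l _
    rw [sum_congr rfl fun i hi => tv_apply S p p' l (mem_range.1 hi)]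
    by_cases h : l ∈ S
    · simp only [if_pos h]
      rw [sum_sub_distrib, sum_delta, sum_delta, if_pos (hp l h),
        if_pos (hp' l h), sub_self]
    · simp only [if_neg h, sum_const_zero]
  rw [sum_congr rfl h1, sum_const_zero, zero_add,
    sum_congr rfl fun i hi => tv_apply S p p' a (by rw [mem_range] at hi; omega)]
  by_cases h : a ∈ S
  · simp only [if_pos h]
    rw [sum_sub_distrib, sum_delta, sum_delta]
    split_ifs <;> simp
  · simp only [if_neg h, sum_const_zero, norm_zero]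
    exact zero_le_one

lemma tv_abs {B L : ℕ} {S : Finset ℕ} {p p' : ℕ → ℕ} (hS : S ⊆ range L) :
    ∑ k ∈ range (L * B), ‖tv 𝕜 B S p p' k‖ ≤ 2 * S.card := by
  rw [sum_blocks]
  have h1 : ∀ l ∈ range L, ∑ r ∈ range B, ‖tv 𝕜 B S p p' (l * B + r)‖ ≤
      if l ∈ S then 2 else 0 := by
    intro l _
    rw [sum_congr rfl fun i hi => by rw [tv_apply S p p' l (mem_range.1 hi)]]
    by_cases h : l ∈ S
    · simp only [if_pos h]
      have h2 : ∀ q : ℕ, ∑ i ∈ range B, ‖(if i = q then (1 : 𝕜) else 0)‖ ≤ 1 := by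
        intro q
        have h3 : ∀ i ∈ range B, ‖(if i = q then (1 : 𝕜) else 0)‖ = if i = q then (1 : ℝ) else 0 :=
          fun i _ => by split_ifs <;> simp
        rw [sum_congr rfl h3, Finset.sum_ite_eq']
        split_ifs
        · exact le_rfl
        · exact zero_le_one
      calc _ ≤ ∑ i ∈ range B, (‖(if i = p l then (1 : 𝕜) else 0)‖ +
            ‖(if i = p' l then (1 : 𝕜) else 0)‖) := sum_le_sum fun i _ => norm_sub_le _ _
        _ ≤ 2 := by
          rw [sum_add_distrib]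
          linarith [h2 (p l), h2 (p' l)]
    · simp only [if_neg h, norm_zero, sum_const_zero]
      exact le_rfl
  refine (sum_le_sum h1).trans ?_
  rw [← sum_filter, filter_mem_eq_inter, inter_eq_right.2 hS, sum_const, nsmul_eq_mul, mul_comm]

lemma tv_chi {B L : ℕ} {S : Finset ℕ} {p p' : ℕ → ℕ} (hS : S ⊆ range L)
    (hp : ∀ l ∈ S, p l < B) (χ : ℕ → Prop) [DecidablePred χ]
    (h1 : ∀ l ∈ S, χ (l * B + p l)) (h2 : ∀ l ∈ S, ¬ χ (l * B + p' l)) :
    ∑ k ∈ range (L * B), (if χ k then tv 𝕜 B S p p' k else 0) = (S.card : 𝕜) := by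
  rw [sum_blocks]
  have h3 : ∀ l ∈ range L, ∑ r ∈ range B, (if χ (l * B + r) then
      tv 𝕜 B S p p' (l * B + r) else 0) = if l ∈ S then 1 else 0 := by
    intro l _
    by_cases h : l ∈ S
    · rw [if_pos h, Finset.sum_eq_single (p l)]
      · rw [if_pos (h1 l h), tv_apply S p p' l (hp l h), if_pos h, if_pos rfl, if_neg, sub_zero]
        intro h4
        apply h2 l h
        rw [← h4]
        exact h1 l h
      · intro i hi hip
        rw [tv_apply S p p' l (mem_range.1 hi), if_pos h, if_neg hip, zero_sub]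
        by_cases h4 : i = p' l
        · rw [h4, if_neg (h2 l h)]
        · rw [if_neg h4, neg_zero, ite_self]
      · intro h4
        exact absurd (mem_range.2 (hp l h)) h4
    · rw [if_neg h]
      refine sum_eq_zero fun i hi => ?_
      rw [tv_apply S p p' l (mem_range.1 hi), if_neg h, ite_self]
  rw [sum_congr rfl h3, ← sum_filter, filter_mem_eq_inter, inter_eq_right.2 hS, sum_const,
    nsmul_eq_mul, mul_one]

/-- few intervals are cut -/
theorem few_cut {B L r : ℕ} (hB : 0 < B) (h : ℕ → ℕ → 𝕜) (h0 : ∀ k, h k 0 = 1) {δ : ℝ}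
    (hδ : ∀ k l, l ≠ 0 → ‖h k l‖ ≤ δ) (hr : 2 * (r : ℝ) * δ ≤ 1) {C₄ : ℝ} (hC : C₄ < r)
    (χ : ℕ → Prop) [DecidablePred χ]
    (hI : ∀ s : ℕ → 𝕜, (∀ t ≤ L * B, ∀ l, ‖∑ k ∈ range t, s k * h k l‖ ≤ 1) →
      ‖∑ k ∈ range (L * B), (if χ k then s k else 0)‖ ≤ C₄) :
    ((range L).filter fun l => (∃ i < B, χ (l * B + i)) ∧ ∃ i < B, ¬ χ (l * B + i)).card < r := by
  classical
  by_contra hcon
  push Not at hcon
  obtain ⟨S, hS, hSr⟩ := Finset.exists_subset_card_eq hcon
  have hS1 : S ⊆ range L := fun l hl => (mem_filter.1 (hS hl)).1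
  have hS2 : ∀ l ∈ S, ∃ i < B, χ (l * B + i) := fun l hl => (mem_filter.1 (hS hl)).2.1
  have hS3 : ∀ l ∈ S, ∃ i < B, ¬ χ (l * B + i) := fun l hl => (mem_filter.1 (hS hl)).2.2
  let p : ℕ → ℕ := fun l => if hl : l ∈ S then (hS2 l hl).choose else 0
  let p' : ℕ → ℕ := fun l => if hl : l ∈ S then (hS3 l hl).choose else 0
  have hp : ∀ l ∈ S, p l < B ∧ χ (l * B + p l) := by
    intro l hl
    simp only [p, dif_pos hl]
    exact (hS2 l hl).choose_spec
  have hp' : ∀ l ∈ S, p' l < B ∧ ¬ χ (l * B + p' l) := by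
    intro l hl
    simp only [p', dif_pos hl]
    exact (hS3 l hl).choose_spec
  have h1 := hI (tv 𝕜 B S p p') (by
    intro t ht l
    rcases Nat.eq_zero_or_pos l with rfl | hl
    · simp only [h0, mul_one]
      exact tv_partial hB (fun l hl => (hp l hl).1) (fun l hl => (hp' l hl).1) t
    · calc ‖∑ k ∈ range t, tv 𝕜 B S p p' k * h k l‖ ≤ ∑ k ∈ range t, ‖tv 𝕜 B S p p' k‖ * δ := by
            refine (norm_sum_le _ _).trans (sum_le_sum fun k _ => ?_)
            rw [norm_mul]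
            exact mul_le_mul_of_nonneg_left (hδ k l (by omega)) (norm_nonneg _)
        _ = (∑ k ∈ range t, ‖tv 𝕜 B S p p' k‖) * δ := by rw [sum_mul]
        _ ≤ (∑ k ∈ range (L * B), ‖tv 𝕜 B S p p' k‖) * δ := by
            refine mul_le_mul_of_nonneg_right ?_ ((norm_nonneg _).trans (hδ 0 1 one_ne_zero))
            refine sum_le_sum_of_subset_of_nonneg (range_mono ht) fun _ _ _ => norm_nonneg _
        _ ≤ (2 * S.card) * δ :=
            mul_le_mul_of_nonneg_right (tv_abs hS1) ((norm_nonneg _).trans (hδ 0 1 one_ne_zero))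
        _ ≤ 1 := by rw [hSr]; exact hr)
  rw [tv_chi hS1 (fun l hl => (hp l hl).1) χ
    (fun l hl => (hp l hl).2) (fun l hl => (hp' l hl).2), hSr, RCLike.norm_natCast] at h1
  linarith

/-- counting -/
theorem exists_clean {B L r : ℕ} (hB : 0 < B) (χ : ℕ → Prop) [DecidablePred χ]
    (hcut : ((range L).filter fun l => (∃ i < B, χ (l * B + i)) ∧
      ∃ i < B, ¬ χ (l * B + i)).card < r)
    (hL : 2 * r ≤ L) (hhalf : 2 * ((range (L * B)).filter χ).card = L * B) :
    ∃ l₁ < L, ∃ l₂ < L, (∀ i < B, χ (l₁ * B + i)) ∧ ∀ i < B, ¬ χ (l₂ * B + i) := by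
  classical
  set NC := (range L).filter fun l => (∃ i < B, χ (l * B + i)) ∧
      ∃ i < B, ¬ χ (l * B + i) with hNC
  have hblk : ∀ (ψ : ℕ → Prop) [DecidablePred ψ],
      (∀ l < L, (∃ i < B, ψ (l * B + i)) → l ∈ NC) →
      ((range (L * B)).filter ψ).card ≤ NC.card * B := by
    intro ψ _ hψ
    rw [card_filter, sum_blocks]
    have h1 : ∀ l ∈ range L, ∑ i ∈ range B, (if ψ (l * B + i) then 1 else 0) ≤
        if l ∈ NC then B else 0 := by
      intro l hl
      split_ifs with h2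
      · calc ∑ i ∈ range B, (if ψ (l * B + i) then 1 else 0) ≤ ∑ _i ∈ range B, 1 :=
              sum_le_sum fun i _ => by split_ifs <;> omega
          _ = B := by simp
      · refine (sum_eq_zero fun i hi => if_neg fun h3 => h2 ?_).le
        exact hψ l (mem_range.1 hl) ⟨i, mem_range.1 hi, h3⟩
    refine (sum_le_sum h1).trans ?_
    rw [← sum_filter, sum_const, smul_eq_mul]
    refine Nat.mul_le_mul_right _ (card_le_card fun l hl => (mem_filter.1 hl).2)
  have hNB : NC.card * B + B ≤ r * B := by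
    have : (NC.card + 1) * B ≤ r * B := Nat.mul_le_mul_right _ hcut
    rw [add_mul, one_mul] at this
    exact this
  have hLB : 2 * (r * B) ≤ L * B := by
    have : (2 * r) * B ≤ L * B := Nat.mul_le_mul_right _ hL
    rw [mul_assoc] at this
    exact this
  have hin : ∃ l₁ < L, ∀ i < B, χ (l₁ * B + i) := by
    by_contra hcon
    push Not at hcon
    have h1 := hblk χ (fun l hl h => mem_filter.2 ⟨mem_range.2 hl, h, hcon l hl⟩)
    omega
  have hout : ∃ l₂ < L, ∀ i < B, ¬ χ (l₂ * B + i) := by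
    by_contra hcon
    push Not at hcon
    have h1 := hblk (fun k => ¬ χ k) (fun l hl h => mem_filter.2 ⟨mem_range.2 hl, hcon l hl, h⟩)
    have h2 := Finset.card_filter_add_card_filter_not (s := range (L * B)) χ
    rw [card_range] at h2
    omega
  obtain ⟨l₁, h1, h2⟩ := hin
  obtain ⟨l₂, h3, h4⟩ := hout
  exact ⟨l₁, h1, l₂, h3, h2, h4⟩

end Pool.Agent.H42.NP
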