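import Pool.Agent.H42.NP.Nu

/-!
# The lifted basic sequence and the quotient map
-/

set_option autoImplicit false

namespace Pool.Agent.H42.NP

open Finset

variable {𝕜 : Type*} [RCLike 𝕜]

section Q

variable {M N : ℕ} {sp : ℕ → Prop} [DecidablePred sp] {c : ℕ → ℕ → 𝕜}
variable {V : Type*} [NormedAddCommGroup V] [NormedSpace 𝕜 V]

lemma abel_sum (a : ℕ → 𝕜) (x : ℕ → V) (m : ℕ) :
    ∑ j ∈ range m, (a j - a (j + 1)) • ∑ i ∈ range (j + 1), x i =
      ∑ j ∈ range m, a j • x j - a m • ∑ i ∈ range m, x i := by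
  induction m with
  | zero => simp
  | succ m ih =>
    rw [sum_range_succ, ih, sum_range_succ (fun j => a j • x j), sum_range_succ x]
    simp only [sub_smul, smul_add]
    abel

/-- the quotient map is bounded by `3` -/
lemma norm_Q_le {w : ℕ → V} (hw : ∀ j < M, ‖w j‖ ≤ 1)
    (hS : ∀ j < M, ∀ s < N, ‖∑ i ∈ range (j + 1), c i s • w i‖ ≤ 3) (α : ℕ → 𝕜) :
    ‖∑ j ∈ range M, (if sp j then ph N α j else 0) • w j‖ ≤ 3 * nu M N sp c α := by
  have h1 : ∑ j ∈ range M, (if sp j then ph N α j else 0) • w j =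
      ∑ s ∈ range N, ∑ j ∈ range M, (co M N α s j - co M N α s (j + 1)) •
        ∑ i ∈ range (j + 1), c i s • w i + ∑ j ∈ range M, uu M N sp c α j • w j := by
    have h2 : ∀ s ∈ range N, ∑ j ∈ range M, (co M N α s j - co M N α s (j + 1)) •
        ∑ i ∈ range (j + 1), c i s • w i = ∑ j ∈ range M, co M N α s j • c j s • w j := by
      intro s _
      rw [abel_sum, co_M α s le_rfl, zero_smul, sub_zero]
    rw [sum_congr rfl h2, sum_comm, ← sum_add_distrib]
    refine sum_congr rfl fun j _ => ?_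
    unfold uu
    rw [sub_smul, sum_smul]
    have h3 : ∑ s ∈ range N, co M N α s j • c j s • w j =
        ∑ s ∈ range N, (c j s * co M N α s j) • w j := by
      refine sum_congr rfl fun s _ => ?_
      rw [smul_smul, mul_comm]
    rw [h3]
    abel
  rw [h1, nu_eq]
  have h4 : ‖∑ s ∈ range N, ∑ j ∈ range M, (co M N α s j - co M N α s (j + 1)) •
        ∑ i ∈ range (j + 1), c i s • w i‖ ≤ 3 * ∑ s ∈ range N, va M N α s := by
    refine (norm_sum_le _ _).trans ?_
    rw [mul_sum]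
    refine sum_le_sum fun s hs => ?_
    refine (norm_sum_le _ _).trans ?_
    unfold va
    rw [mul_sum]
    refine sum_le_sum fun j hj => ?_
    rw [norm_smul, mul_comm]
    exact mul_le_mul_of_nonneg_right (hS j (mem_range.1 hj) s (mem_range.1 hs)) (norm_nonneg _)
  have h5 : ‖∑ j ∈ range M, uu M N sp c α j • w j‖ ≤ ∑ j ∈ range M, ‖uu M N sp c α j‖ := by
    refine (norm_sum_le _ _).trans (sum_le_sum fun j hj => ?_)
    rw [norm_smul]
    exact mul_le_of_le_one_right (norm_nonneg _) (hw j (mem_range.1 hj))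
  have h6 : 0 ≤ ∑ j ∈ range M, ‖uu M N sp c α j‖ := sum_nonneg fun _ _ => norm_nonneg _
  have h7 : 0 ≤ ∑ j ∈ range M, ‖zz N sp α j‖ := sum_nonneg fun _ _ => norm_nonneg _
  refine (norm_add_le _ _).trans ?_
  linarith

end Q

section seq

variable (M N : ℕ) (sp : ℕ → Prop) [DecidablePred sp] (c : ℕ → ℕ → 𝕜)
variable {E : Type*} [NormedAddCommGroup E] [NormedSpace 𝕜 E]

/-- `co` is additive and homogeneous -/
lemma co_add (α β : ℕ → 𝕜) (s j : ℕ) : co M N (α + β) s j = co M N α s j + co M N β s j := by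
  unfold co
  split_ifs <;> simp

lemma co_smul (t : 𝕜) (α : ℕ → 𝕜) (s j : ℕ) : co M N (t • α) s j = t * co M N α s j := by
  unfold co
  split_ifs <;> simp

lemma ph_add (α β : ℕ → 𝕜) (j : ℕ) : ph N (α + β) j = ph N α j + ph N β j := rfl

lemma ph_smul (t : 𝕜) (α : ℕ → 𝕜) (j : ℕ) : ph N (t • α) j = t * ph N α j := rfl

lemma uu_add (α β : ℕ → 𝕜) (j : ℕ) :
    uu M N sp c (α + β) j = uu M N sp c α j + uu M N sp c β j := by
  unfold uu
  simp only [co_add, ph_add, mul_add, sum_add_distrib]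
  split_ifs <;> ring

lemma uu_smul (t : 𝕜) (α : ℕ → 𝕜) (j : ℕ) :
    uu M N sp c (t • α) j = t * uu M N sp c α j := by
  unfold uu
  simp only [co_smul, ph_smul, mul_sub, mul_sum]
  have : ∀ s, c j s * (t * co M N α s j) = t * (c j s * co M N α s j) := fun s => by ring
  simp only [this]
  split_ifs <;> simp

lemma zz_add (α β : ℕ → 𝕜) (j : ℕ) : zz N sp (α + β) j = zz N sp α j + zz N sp β j := by
  unfold zz
  split_ifs
  · rw [add_zero]
  · rfl

lemma zz_smul (t : 𝕜) (α : ℕ → 𝕜) (j : ℕ) : zz N sp (t • α) j = t * zz N sp α j := by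
  unfold zz
  split_ifs
  · rw [mul_zero]
  · rfl

/-- `gv` as a linear map -/
def gvl : (ℕ → 𝕜) →ₗ[𝕜] (Om M N → 𝕜) where
  toFun := gv M N sp c
  map_add' α β := by
    funext ω
    rcases ω with ⟨s, j⟩ | j | j
    · change co M N (α + β) s j - co M N (α + β) s (j + 1) =
        (co M N α s j - co M N α s (j + 1)) + (co M N β s j - co M N β s (j + 1))
      rw [co_add, co_add]
      ring
    · exact uu_add M N sp c α β j
    · exact zz_add N sp α β j
  map_smul' t α := by
    funext ω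
    rcases ω with ⟨s, j⟩ | j | j
    · change co M N (t • α) s j - co M N (t • α) s (j + 1) =
        t * (co M N α s j - co M N α s (j + 1))
      rw [co_smul, co_smul]
      ring
    · exact uu_smul M N sp c t α j
    · exact zz_smul N sp t α j

/-- the image of `ℓ_1` in `E` -/
def jl (z : Om M N → E) : (Om M N → 𝕜) →ₗ[𝕜] E where
  toFun g := ∑ ω, g ω • z ω
  map_add' g h := by
    simp only [Pi.add_apply, add_smul, sum_add_distrib]
  map_smul' t g := by
    simp only [Pi.smul_apply, smul_eq_mul, RingHom.id_apply, smul_sum, smul_smul]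

/-- the part in the block `F` -/
def vl (vv : ℕ → E) : (ℕ → 𝕜) →ₗ[𝕜] E where
  toFun α := ∑ j ∈ range M, (if sp j then ph N α j else 0) • vv j
  map_add' α β := by
    rw [← sum_add_distrib]
    refine sum_congr rfl fun j _ => ?_
    rw [ph_add, ← add_smul]
    congr 1
    split_ifs
    · rfl
    · rw [add_zero]
  map_smul' t α := by
    rw [RingHom.id_apply, smul_sum]
    refine sum_congr rfl fun j _ => ?_
    rw [ph_smul, smul_smul]
    congr 1
    split_ifs
    · rfl
    · rw [mul_zero]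

/-- the vector with coefficients `α` -/
def yl (vv : ℕ → E) (z : Om M N → E) : (ℕ → 𝕜) →ₗ[𝕜] E :=
  vl M N sp vv + (jl M N z).comp (gvl M N sp c)

variable {M N sp c}

lemma jl_apply (z : Om M N → E) (g : Om M N → 𝕜) : jl M N z g = ∑ ω, g ω • z ω := rfl

lemma vl_apply (vv : ℕ → E) (α : ℕ → 𝕜) :
    vl M N sp vv α = ∑ j ∈ range M, (if sp j then ph N α j else 0) • vv j := rfl

lemma yl_apply (vv : ℕ → E) (z : Om M N → E) (α : ℕ → 𝕜) :
    yl M N sp c vv z α = vl M N sp vv α + jl M N z (gv M N sp c α) := rfl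

lemma lt_R {j : ℕ} (hj : j < M) : j * (N + 1) < M * (N + 1) :=
  Nat.mul_lt_mul_of_pos_right hj (Nat.succ_pos N)

lemma lt_R' {j s : ℕ} (hj : j < M) (hs : s < N) : j * (N + 1) + s + 1 < M * (N + 1) := by
  have h1 : (j + 1) * (N + 1) ≤ M * (N + 1) := Nat.mul_le_mul_right _ hj
  have h2 : (j + 1) * (N + 1) = j * (N + 1) + (N + 1) := by ring
  omega

lemma cut_eq_sum (α : ℕ → 𝕜) (r : ℕ) :
    cut r α = ∑ i ∈ range r, α i • (Pi.single i (1 : 𝕜) : ℕ → 𝕜) := by
  funext k
  rw [Finset.sum_apply]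
  unfold cut
  simp only [Pi.smul_apply, smul_eq_mul, Pi.single_apply, mul_ite, mul_one, mul_zero]
  rw [Finset.sum_ite_eq]
  simp only [mem_range]

lemma gv_cut (α : ℕ → 𝕜) : gv M N sp c (cut (M * (N + 1)) α) = gv M N sp c α := by
  have hco : ∀ s < N, ∀ j, co M N (cut (M * (N + 1)) α) s j = co M N α s j := by
    intro s hs j
    rcases lt_or_ge j M with h | h
    · rw [co_cut, if_pos (lt_R' h hs)]
    · rw [co_M _ s h, co_M _ s h]
  have hph : ∀ j < M, ph N (cut (M * (N + 1)) α) j = ph N α j := fun j hj => by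
    rw [ph_cut, if_pos (lt_R hj)]
  funext ω
  rcases ω with ⟨s, j⟩ | j | j
  · change co M N _ s j - co M N _ s (j + 1) = co M N α s j - co M N α s (j + 1)
    rw [hco s s.2, hco s s.2]
  · change uu M N sp c _ j = uu M N sp c α j
    unfold uu
    rw [hph j j.2]
    congr 1
    exact sum_congr rfl fun s hs => by rw [hco s (mem_range.1 hs)]
  · change zz N sp _ j = zz N sp α j
    unfold zz
    rw [hph j j.2]

lemma yl_cut (vv : ℕ → E) (z : Om M N → E) (α : ℕ → 𝕜) :
    yl M N sp c vv z (cut (M * (N + 1)) α) = yl M N sp c vv z α := by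
  rw [yl_apply, yl_apply, gv_cut, vl_apply, vl_apply]
  congr 1
  refine sum_congr rfl fun j hj => ?_
  rw [ph_cut, if_pos (lt_R (mem_range.1 hj))]

lemma yl_cut_eq_sum (vv : ℕ → E) (z : Om M N → E) (α : ℕ → 𝕜) (r : ℕ) :
    yl M N sp c vv z (cut r α) =
      ∑ i ∈ range r, α i • yl M N sp c vv z (Pi.single i (1 : 𝕜)) := by
  rw [cut_eq_sum, map_sum]
  exact sum_congr rfl fun i _ => map_smul _ _ _

lemma rs_cut (A : Finset ℕ) (α : ℕ → 𝕜) (r : ℕ) : rs A (cut r α) = cut r (rs A α) := by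
  funext i
  by_cases h1 : i ∈ A <;> by_cases h2 : i < r <;> simp [rs, cut, h1, h2]

/-- an operator acting diagonally on the sequence -/
lemma T_yl {T : E →L[𝕜] E} {vv : ℕ → E} {z : Om M N → E} {A : Finset ℕ}
    (hT : ∀ i < M * (N + 1), T (yl M N sp c vv z (Pi.single i (1 : 𝕜))) =
      if i ∈ A then yl M N sp c vv z (Pi.single i (1 : 𝕜)) else 0) (α : ℕ → 𝕜) :
    T (yl M N sp c vv z α) = yl M N sp c vv z (rs A α) := by
  rw [← yl_cut, ← yl_cut vv z (rs A α), yl_cut_eq_sum, yl_cut_eq_sum, map_sum]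
  refine sum_congr rfl fun i hi => ?_
  rw [map_smul, hT i (mem_range.1 hi)]
  unfold rs
  split_ifs
  · rfl
  · rw [smul_zero, zero_smul]

end seq

end Pool.Agent.H42.NP
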