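import Pool.Agent.H42.NP.Pair

/-!
# From an operator acting diagonally to a factorization through `ℓ_∞`
-/

set_option autoImplicit false

namespace Pool.Agent.H42.NP

open Finset

variable {𝕜 : Type*} [RCLike 𝕜]
variable {E : Type*} [NormedAddCommGroup E] [NormedSpace 𝕜 E]

/-- `G` factors through some `ℓ_∞^N` with operators of norm at most `a` and `b`. -/
def Fac (G : E →L[𝕜] E) (a b : ℝ) : Prop :=
  ∃ (N : ℕ) (α : E →ₗ[𝕜] (Fin N → 𝕜)) (β : (Fin N → 𝕜) →ₗ[𝕜] E),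
    (∀ x, ‖α x‖ ≤ a * ‖x‖) ∧ (∀ v, ‖β v‖ ≤ b * ‖v‖) ∧ ∀ x, G x = β (α x)

lemma fac_of {ι : Type*} [Fintype ι] {G : E →L[𝕜] E} {a b : ℝ} (hb0 : 0 ≤ b)
    (α : E →ₗ[𝕜] (ι → 𝕜)) (β : (ι → 𝕜) →ₗ[𝕜] E) (hα : ∀ x, ‖α x‖ ≤ a * ‖x‖)
    (hβ : ∀ v, ‖β v‖ ≤ b * ‖v‖) (h : ∀ x, G x = β (α x)) : Fac G a b := by
  let e := Fintype.equivFin ι
  refine ⟨Fintype.card ι, (LinearMap.funLeft 𝕜 𝕜 e.symm).comp α,
    β.comp (LinearMap.funLeft 𝕜 𝕜 e), fun x => ?_, fun v => ?_, fun x => ?_⟩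
  · refine le_trans ?_ (hα x)
    rw [LinearMap.comp_apply, pi_norm_le_iff_of_nonneg (norm_nonneg _)]
    intro i
    rw [LinearMap.funLeft_apply]
    exact norm_le_pi_norm _ _
  · refine (hβ _).trans (mul_le_mul_of_nonneg_left ?_ hb0)
    rw [pi_norm_le_iff_of_nonneg (norm_nonneg _)]
    intro i
    rw [LinearMap.funLeft_apply]
    exact norm_le_pi_norm _ _
  · rw [h x, LinearMap.comp_apply, LinearMap.comp_apply]
    congr 1
    funext i
    rw [LinearMap.funLeft_apply, LinearMap.funLeft_apply, Equiv.symm_apply_apply]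

/-- the matrix defining the order-forcing sequence -/
noncomputable def hh (n m : ℕ) (x : ℕ → E) (η : ℕ → E →L[𝕜] 𝕜) (k l : ℕ) : 𝕜 :=
  if l = 0 then 1 else η (l - 1) (vx (𝕜 := 𝕜) n m x k)

section

variable {n m : ℕ} {x : ℕ → E} {η : ℕ → E →L[𝕜] 𝕜}

lemma norm_vx_le (hn : 0 < n) (hx : ∀ i < n, ‖x i‖ ≤ 1) (k : ℕ) :
    ‖vx (𝕜 := 𝕜) n m x k‖ ≤ (m : ℝ)⁻¹ := by
  unfold vx
  split_ifs
  · rw [norm_smul, norm_inv, RCLike.norm_natCast]
    exact mul_le_of_le_one_right (by positivity) (hx _ (Nat.mod_lt _ hn))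
  · rw [norm_zero]
    positivity

lemma hh_zero (k : ℕ) : hh n m x η k 0 = 1 := if_pos rfl

lemma norm_hh_le (hn : 0 < n) (hx : ∀ i < n, ‖x i‖ ≤ 1) (hη : ∀ l, ‖η l‖ ≤ 1) (k l : ℕ)
    (hl : l ≠ 0) : ‖hh n m x η k l‖ ≤ (m : ℝ)⁻¹ := by
  unfold hh
  rw [if_neg hl]
  calc ‖η (l - 1) (vx n m x k)‖ ≤ ‖η (l - 1)‖ * ‖vx (𝕜 := 𝕜) n m x k‖ := (η (l - 1)).le_opNorm _
    _ ≤ 1 * (m : ℝ)⁻¹ := mul_le_mul (hη _) (norm_vx_le hn hx k) (norm_nonneg _) zero_le_one
    _ = (m : ℝ)⁻¹ := one_mul _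

lemma norm_hh_le_one (hn : 0 < n) (hm : 0 < m) (hx : ∀ i < n, ‖x i‖ ≤ 1)
    (hη : ∀ l, ‖η l‖ ≤ 1) (k l : ℕ) : ‖hh n m x η k l‖ ≤ 1 := by
  by_cases hl : l = 0
  · rw [hl, hh_zero, norm_one]
  · refine (norm_hh_le hn hx hη k l hl).trans ?_
    have : (1 : ℝ) ≤ m := by exact_mod_cast hm
    exact inv_le_one_of_one_le₀ this

/-- sums against the columns of the matrix -/
lemma sum_hh (s : ℕ → 𝕜) (t l : ℕ) : ∑ k ∈ range t, s k * hh n m x η k l =
    if l = 0 then ∑ k ∈ range t, s k else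
      η (l - 1) (∑ k ∈ range t, s k • vx (𝕜 := 𝕜) n m x k) := by
  unfold hh
  by_cases hl : l = 0
  · simp only [if_pos hl, mul_one]
  · simp only [if_neg hl]
    rw [map_sum]
    exact sum_congr rfl fun k _ => by rw [map_smul, smul_eq_mul]

end

section

variable {D q N : ℕ} {h : ℕ → ℕ → 𝕜}

lemma io_apply' (s : ℕ → 𝕜) (p : Fin D × Fin (q + 1)) :
    io (D * (q + 1)) (spq q) (wv D q h) (fun j => s (j / (q + 1))) p =
      ∑ k ∈ range (p.1 + 1), s k * h k p.2 := by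
  rw [io_apply]
  exact sum_congr rfl fun k _ => by rw [Nat.mul_div_cancel _ (Nat.succ_pos q)]

lemma io_apply_chi (s : ℕ → 𝕜) (A : Finset ℕ) (p : Fin D × Fin (q + 1)) :
    io (D * (q + 1)) (spq q) (wv D q h)
      (fun j => if j * (N + 1) ∈ A then s (j / (q + 1)) else 0) p =
      ∑ k ∈ range (p.1 + 1), (if k * (q + 1) * (N + 1) ∈ A then s k else 0) * h k p.2 := by
  rw [io_apply]
  exact sum_congr rfl fun k _ => by rw [Nat.mul_div_cancel _ (Nat.succ_pos q)]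

lemma io_eq' (v : ℕ → E) (s : ℕ → 𝕜) :
    io (D * (q + 1)) (spq q) (fun j => v (j / (q + 1))) (fun j => s (j / (q + 1))) =
      ∑ k ∈ range D, s k • v k := by
  rw [io_eq]
  exact sum_congr rfl fun k _ => by rw [Nat.mul_div_cancel _ (Nat.succ_pos q)]

lemma io_eq_chi (v : ℕ → E) (s : ℕ → 𝕜) (A : Finset ℕ) :
    io (D * (q + 1)) (spq q) (fun j => v (j / (q + 1)))
      (fun j => if j * (N + 1) ∈ A then s (j / (q + 1)) else 0) =
      ∑ k ∈ range D, (if k * (q + 1) * (N + 1) ∈ A then s k else 0) • v k := by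
  rw [io_eq]
  exact sum_congr rfl fun k _ => by rw [Nat.mul_div_cancel _ (Nat.succ_pos q)]

end

/-- an operator acting diagonally, with half of the special indices, yields a factorization -/
theorem main_fac {n m L r q N : ℕ} (hn : 0 < n) (hm : 0 < m) (hL : 2 * r ≤ L) (hmr : 2 * r ≤ m)
    (hr : 0 < r) {x : ℕ → E} (hx : ∀ i < n, ‖x i‖ ≤ 1) {η : ℕ → E →L[𝕜] 𝕜}
    (hη : ∀ l, ‖η l‖ ≤ 1) {d : ℕ → (Fin (L * (n * m * 2)) × Fin (q + 1) → 𝕜)}
    (hV : VData (L * (n * m * 2) * (q + 1)) N (wv (L * (n * m * 2)) q (hh n m x η))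
      (cfn (L * (n * m * 2)) q (hh n m x η)) d) {G Q T : E →L[𝕜] E} {κ C₁ K : ℝ}
    {z : Om (L * (n * m * 2) * (q + 1)) N → E}
    (hE : EData (𝕜 := 𝕜) (L * (n * m * 2) * (q + 1)) N (spq q) G Q κ C₁
      (fun j => vx (𝕜 := 𝕜) n m x (j / (q + 1))) z (wv (L * (n * m * 2)) q (hh n m x η)))
    (hC₁ : 0 ≤ C₁) (hTK : ‖T‖ ≤ K) (hC₄ : 6 * κ * K * (6 + C₁) < r) {A : Finset ℕ}
    (hT : ∀ i < L * (n * m * 2) * (q + 1) * (N + 1),
      T (yl (L * (n * m * 2) * (q + 1)) N (spq q)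
        (fun j s => cfn (L * (n * m * 2)) q (hh n m x η) j (d s))
        (fun j => vx (𝕜 := 𝕜) n m x (j / (q + 1))) z (Pi.single i (1 : 𝕜))) =
      if i ∈ A then yl (L * (n * m * 2) * (q + 1)) N (spq q)
        (fun j s => cfn (L * (n * m * 2)) q (hh n m x η) j (d s))
        (fun j => vx (𝕜 := 𝕜) n m x (j / (q + 1))) z (Pi.single i (1 : 𝕜)) else 0)
    (hhalf : 2 * ((range (L * (n * m * 2))).filter
      (fun k => k * (q + 1) * (N + 1) ∈ A)).card = L * (n * m * 2))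
    {b : ℕ → E →ₗ[𝕜] 𝕜} (hb : ∀ i < n, ∀ f, ‖b i f‖ ≤ κ * ‖f‖)
    (hbp : ∀ i ≤ n, ∀ f, ‖∑ i' ∈ range i, b i' f • x i'‖ ≤ κ * ‖f‖)
    (hbG : ∀ f, ∑ i ∈ range n, b i f • x i = G f) :
    Fac G (2 * κ) (2 * κ * K * C₁) := by
  classical
  have hκ : 0 ≤ κ := (norm_nonneg _).trans hE.norm_G
  have hK : 0 ≤ K := (norm_nonneg _).trans hTK
  have hB : 0 < n * m * 2 := by positivity
  have hD : 0 < L * (n * m * 2) := by
    have : 0 < L := by omega
    positivity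
  have hm' : (0 : ℝ) < m := by exact_mod_cast hm
  obtain ⟨l₁, hl₁, l₂, hl₂, hχ₁, hχ₂⟩ := exists_clean (B := n * m * 2) (L := L) (r := r) hB
    (fun k => k * (q + 1) * (N + 1) ∈ A) (by
      refine few_cut (𝕜 := 𝕜) (B := n * m * 2) (L := L) (r := r) hB (hh n m x η)
        (fun k => hh_zero k)
        (δ := (m : ℝ)⁻¹) (fun k l hl => norm_hh_le hn hx hη k l hl) ?_ hC₄
        (fun k => k * (q + 1) * (N + 1) ∈ A) ?_
      · rw [mul_inv_le_iff₀ hm', one_mul]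
        exact_mod_cast hmr
      · intro s hs
        have h1 := bound_one hV hE hC₁ hTK hT (fun j => s (j / (q + 1)))
        have h2 : ‖io (L * (n * m * 2) * (q + 1)) (spq q) (wv (L * (n * m * 2)) q (hh n m x η))
            (fun j => s (j / (q + 1)))‖ ≤ 1 := by
          rw [pi_norm_le_iff_of_nonneg zero_le_one]
          intro p
          rw [io_apply']
          exact hs _ p.1.2 _
        have h3 : 0 ≤ 6 * κ * K * (6 + C₁) := by positivity
        have h4 := norm_le_pi_norm (io (L * (n * m * 2) * (q + 1)) (spq q)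
          (wv (L * (n * m * 2)) q (hh n m x η))
          (fun j => if j * (N + 1) ∈ A then s (j / (q + 1)) else 0))
          (⟨L * (n * m * 2) - 1, by omega⟩, (0 : Fin (q + 1)))
        rw [io_apply_chi] at h4
        have h5 : L * (n * m * 2) - 1 + 1 = L * (n * m * 2) := by omega
        simp only [h5] at h4
        have h6 : ((0 : Fin (q + 1)) : ℕ) = 0 := rfl
        rw [h6] at h4
        simp only [hh_zero, mul_one] at h4
        refine h4.trans (h1.trans ?_)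
        calc _ ≤ 6 * κ * K * (6 + C₁) * 1 := mul_le_mul_of_nonneg_left h2 h3
          _ = _ := mul_one _) hL hhalf
  -- the operator into `ℓ_∞`
  let s : E → ℕ → 𝕜 := fun f => bp n m l₁ l₂ (fun i => b i f)
  have hs_add : ∀ f g k, s (f + g) k = s f k + s g k := by
    intro f g k
    simp only [s, bp, map_add]
    ring
  have hs_smul : ∀ (c : 𝕜) f k, s (c • f) k = c * s f k := by
    intro c f k
    simp only [s, bp, map_smul, smul_eq_mul]
    ring
  let α : E →ₗ[𝕜] (Fin (L * (n * m * 2)) × Fin (q + 1) → 𝕜) :=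
    { toFun := fun f => io (L * (n * m * 2) * (q + 1)) (spq q)
        (wv (L * (n * m * 2)) q (hh n m x η)) (fun j => s f (j / (q + 1)))
      map_add' := fun f g => by
        funext p
        rw [Pi.add_apply, io_apply', io_apply', io_apply', ← sum_add_distrib]
        exact sum_congr rfl fun k _ => by rw [hs_add, add_mul]
      map_smul' := fun c f => by
        funext p
        rw [RingHom.id_apply, Pi.smul_apply, io_apply', io_apply', smul_eq_mul, mul_sum]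
        exact sum_congr rfl fun k _ => by rw [hs_smul, mul_assoc] }
  have hα : ∀ f, α f = io (L * (n * m * 2) * (q + 1)) (spq q)
        (wv (L * (n * m * 2)) q (hh n m x η)) (fun j => s f (j / (q + 1))) := fun f => rfl
  refine fac_of (by positivity) α (tp (L * (n * m * 2) * (q + 1)) N
    (cfn (L * (n * m * 2)) q (hh n m x η)) G T z) ?_ ?_ ?_
  · intro f
    have h0 : 0 ≤ κ * ‖f‖ := mul_nonneg hκ (norm_nonneg _)
    rw [pi_norm_le_iff_of_nonneg (by linarith)]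
    intro p
    rw [hα, io_apply', sum_hh]
    split_ifs
    · have h1 := bp_partial (𝕜 := 𝕜) (m := m) (l₁ := l₁) (l₂ := l₂) (b := fun i => b i f) hn
        (R := κ * ‖f‖) (fun i hi => hb i hi f) (p.1 + 1)
      refine h1.trans ?_
      linarith
    · have h1 := vsum_partial (𝕜 := 𝕜) (l₁ := l₁) (l₂ := l₂) (b := fun i => b i f) (x := x) hn hm
        (R := κ * ‖f‖) (fun i hi => hbp i hi f) (p.1 + 1)
      refine ((η _).le_opNorm _).trans ?_
      calc ‖η ((p.2 : ℕ) - 1)‖ * _ ≤ 1 * (2 * (κ * ‖f‖)) :=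
            mul_le_mul (hη _) h1 (norm_nonneg _) zero_le_one
        _ = 2 * κ * ‖f‖ := by ring
  · intro v
    exact bound_two hV hE hC₁ hTK hT v
  · intro f
    rw [hα, tp_io hV hE hT, io_eq_chi, io_eq']
    have h1 := vsum_chi (𝕜 := 𝕜) (l₁ := l₁) (l₂ := l₂) (b := fun i => b i f) (x := x) hn hm hl₁
      (fun k => k * (q + 1) * (N + 1) ∈ A) hχ₁ hχ₂
    have h2 := vsum_zero (𝕜 := 𝕜) (l₁ := l₁) (l₂ := l₂) (b := fun i => b i f) (x := x) hn hm hl₁ hl₂
    simp only [s]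
    rw [h1, h2, map_zero, map_zero, sub_zero, hbG]

end Pool.Agent.H42.NP
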