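import Mathlib

/-!
# The basis of `ℓ_1^N` lifting a basis of a finite-dimensional space

Coefficients `α : ℕ → 𝕜` are indexed by `i = j * (N + 1) + τ`, `j < M`, `τ ≤ N`; the entry `τ = 0`
is the coefficient of the `j`-th lifted basis vector, the entries `τ = s + 1` are the coefficients
of the kernel vectors of level `j`.
-/

set_option autoImplicit false

namespace Pool.Agent.H42.NP

open Finset

variable {𝕜 : Type*} [RCLike 𝕜]

/-- index set of the unit vectors of `ℓ_1` -/
abbrev Om (M N : ℕ) : Type := (Fin N × Fin M) ⊕ (Fin M ⊕ Fin M)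

/-- the coefficient of the lifted basis vector of level `j` -/
def ph (N : ℕ) (α : ℕ → 𝕜) (j : ℕ) : 𝕜 := α (j * (N + 1))

/-- the coefficient of the `s`-th kernel vector of level `j` (zero for `j ≥ M`) -/
def co (M N : ℕ) (α : ℕ → 𝕜) (s j : ℕ) : 𝕜 := if j < M then α (j * (N + 1) + s + 1) else 0

/-- coordinate of the vector of `ℓ_1` along the lift of the `j`-th basis vector -/
def uu (M N : ℕ) (sp : ℕ → Prop) [DecidablePred sp] (c : ℕ → ℕ → 𝕜) (α : ℕ → 𝕜) (j : ℕ) : 𝕜 :=
  (if sp j then ph N α j else 0) - ∑ s ∈ range N, c j s * co M N α s j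

/-- coordinate along the dummy vectors -/
def zz (N : ℕ) (sp : ℕ → Prop) [DecidablePred sp] (α : ℕ → 𝕜) (j : ℕ) : 𝕜 :=
  if sp j then 0 else ph N α j

/-- the vector of `ℓ_1` with coefficients `α` -/
def gv (M N : ℕ) (sp : ℕ → Prop) [DecidablePred sp] (c : ℕ → ℕ → 𝕜) (α : ℕ → 𝕜) : Om M N → 𝕜
  | Sum.inl (s, j) => co M N α s j - co M N α s (j + 1)
  | Sum.inr (Sum.inl j) => uu M N sp c α j
  | Sum.inr (Sum.inr j) => zz N sp α j

/-- truncation of the coefficients -/
def cut (r : ℕ) (α : ℕ → 𝕜) : ℕ → 𝕜 := fun i => if i < r then α i else 0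

/-- restriction of the coefficients to a set -/
def rs (A : Finset ℕ) (α : ℕ → 𝕜) : ℕ → 𝕜 := fun i => if i ∈ A then α i else 0

/-- variation of the kernel coefficients -/
def va (M N : ℕ) (α : ℕ → 𝕜) (s : ℕ) : ℝ :=
  ∑ j ∈ range M, ‖co M N α s j - co M N α s (j + 1)‖

/-- the `ℓ_1` norm of `gv` -/
noncomputable def nu (M N : ℕ) (sp : ℕ → Prop) [DecidablePred sp] (c : ℕ → ℕ → 𝕜) (α : ℕ → 𝕜) :
    ℝ :=
  ∑ ω, ‖gv M N sp c α ω‖

section grun

variable {M N : ℕ} {sp : ℕ → Prop} [DecidablePred sp] {c : ℕ → ℕ → 𝕜}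

lemma nu_eq (α : ℕ → 𝕜) : nu M N sp c α = ∑ s ∈ range N, va M N α s +
    (∑ j ∈ range M, ‖uu M N sp c α j‖ + ∑ j ∈ range M, ‖zz N sp α j‖) := by
  unfold nu
  rw [Fintype.sum_sum_type, Fintype.sum_sum_type, Fintype.sum_prod_type,
    Finset.sum_range, Finset.sum_range, Finset.sum_range]
  congr 1
  refine Finset.sum_congr rfl fun s _ => ?_
  unfold va
  rw [Finset.sum_range]
  rfl

lemma va_nonneg (α : ℕ → 𝕜) (s : ℕ) : 0 ≤ va M N α s := sum_nonneg fun _ _ => norm_nonneg _

lemma co_M (α : ℕ → 𝕜) (s : ℕ) {j : ℕ} (h : M ≤ j) : co M N α s j = 0 := if_neg (by omega)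

lemma tail_bound (b : ℕ → 𝕜) {k m : ℕ} (hkm : k ≤ m) (hb : b m = 0) :
    ‖b k‖ ≤ ∑ j ∈ Ico k m, ‖b j - b (j + 1)‖ := by
  have h1 : b k = -∑ j ∈ Ico k m, (b (j + 1) - b j) := by
    rw [Finset.sum_Ico_sub b hkm, hb]
    ring
  rw [h1, norm_neg]
  refine (norm_sum_le _ _).trans (le_of_eq (Finset.sum_congr rfl fun j _ => norm_sub_rev _ _))

lemma norm_co_le (α : ℕ → 𝕜) (s k : ℕ) : ‖co M N α s k‖ ≤ va M N α s := by
  rcases le_or_gt M k with h | h
  · rw [co_M α s h, norm_zero]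
    exact va_nonneg α s
  · refine (tail_bound (co M N α s) h.le (co_M α s le_rfl)).trans ?_
    unfold va
    refine sum_le_sum_of_subset_of_nonneg ?_ fun _ _ _ => norm_nonneg _
    intro j hj
    rw [mem_Ico] at hj
    exact mem_range.2 hj.2

lemma trunc_var (b : ℕ → 𝕜) (p : ℕ → Prop) [DecidablePred p] (hp : ∀ j, p (j + 1) → p j)
    (m : ℕ) :
    ∑ j ∈ range m, ‖(if p j then b j else 0) - (if p (j + 1) then b (j + 1) else 0)‖ +
      ‖(if p m then b m else 0)‖ ≤ ∑ j ∈ range m, ‖b j - b (j + 1)‖ + ‖b m‖ := by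
  induction m with
  | zero =>
    rw [sum_range_zero, sum_range_zero, zero_add, zero_add]
    split_ifs
    · exact le_rfl
    · rw [norm_zero]
      exact norm_nonneg _
  | succ m ih =>
    rw [sum_range_succ, sum_range_succ]
    by_cases h : p (m + 1)
    · have hall' : ∀ k j, j + k = m + 1 → p j := by
        intro k
        induction k with
        | zero =>
          intro j hj
          rw [add_zero] at hj
          rw [hj]
          exact h
        | succ k ih' => exact fun j hj => hp j (ih' (j + 1) (by omega))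
      have hall : ∀ j, j ≤ m + 1 → p j := fun j hj => hall' (m + 1 - j) j (by omega)
      rw [if_pos h, if_pos (hall m (Nat.le_succ m))]
      refine add_le_add (add_le_add (le_of_eq (sum_congr rfl fun j hj => ?_)) le_rfl) le_rfl
      rw [mem_range] at hj
      rw [if_pos (hall j (by omega)), if_pos (hall (j + 1) (by omega))]
    · rw [if_neg h, sub_zero, norm_zero, add_zero]
      have h1 : ‖b m‖ ≤ ‖b m - b (m + 1)‖ + ‖b (m + 1)‖ := norm_le_norm_sub_add _ _
      linarith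

lemma co_cut (α : ℕ → 𝕜) (r s j : ℕ) : co M N (cut r α) s j =
    if j * (N + 1) + s + 1 < r then co M N α s j else 0 := by
  unfold co cut
  by_cases h1 : j < M <;> by_cases h2 : j * (N + 1) + s + 1 < r <;> simp [h1, h2]

lemma ph_cut (α : ℕ → 𝕜) (r j : ℕ) : ph N (cut r α) j =
    if j * (N + 1) < r then ph N α j else 0 := rfl

lemma va_cut (α : ℕ → 𝕜) (r s : ℕ) : va M N (cut r α) s ≤ va M N α s := by
  have h := trunc_var (co M N α s) (fun j => j * (N + 1) + s + 1 < r) (fun j hj => by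
    have : (j + 1) * (N + 1) = j * (N + 1) + (N + 1) := by ring
    omega) M
  rw [co_M α s le_rfl] at h
  simp only [ite_self, norm_zero, add_zero] at h
  unfold va
  refine le_trans (le_of_eq (sum_congr rfl fun j _ => ?_)) h
  rw [co_cut, co_cut]

lemma uu_cut_lt (α : ℕ → 𝕜) {r j : ℕ} (h : (j + 1) * (N + 1) ≤ r) :
    uu M N sp c (cut r α) j = uu M N sp c α j := by
  have h' : (j + 1) * (N + 1) = j * (N + 1) + (N + 1) := by ring
  have hφ : ph N (cut r α) j = ph N α j := by rw [ph_cut, if_pos (by omega)]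
  unfold uu
  rw [hφ]
  congr 1
  refine sum_congr rfl fun s hs => ?_
  rw [mem_range] at hs
  rw [co_cut, if_pos (by omega)]

lemma uu_cut_gt (α : ℕ → 𝕜) {r j : ℕ} (h : r ≤ j * (N + 1)) :
    uu M N sp c (cut r α) j = 0 := by
  have hφ : ph N (cut r α) j = 0 := by rw [ph_cut, if_neg (by omega)]
  unfold uu
  rw [hφ, ite_self, zero_sub, neg_eq_zero]
  refine sum_eq_zero fun s hs => ?_
  rw [co_cut, if_neg (by omega), mul_zero]

lemma uu_cut_le (hc : ∀ j s, ‖c j s‖ ≤ 4) (α : ℕ → 𝕜) {r j : ℕ} (h : j * (N + 1) < r) :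
    ‖uu M N sp c (cut r α) j‖ ≤ ‖uu M N sp c α j‖ + 4 * ∑ s ∈ range N, va M N α s := by
  have hφ : ph N (cut r α) j = ph N α j := by rw [ph_cut, if_pos h]
  have h1 : uu M N sp c (cut r α) j = uu M N sp c α j +
      ∑ s ∈ range N, c j s * (co M N α s j - co M N (cut r α) s j) := by
    unfold uu
    rw [hφ]
    simp only [mul_sub, sum_sub_distrib]
    ring
  rw [h1]
  refine (norm_add_le _ _).trans (add_le_add le_rfl ?_)
  refine (norm_sum_le _ _).trans ?_
  rw [mul_sum]
  refine sum_le_sum fun s _ => ?_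
  rw [norm_mul]
  refine mul_le_mul (hc j s) ?_ (norm_nonneg _) (by norm_num)
  rw [co_cut]
  split_ifs
  · rw [sub_self, norm_zero]
    exact va_nonneg α s
  · rw [sub_zero]
    exact norm_co_le α s j

lemma zz_cut (α : ℕ → 𝕜) (r j : ℕ) : ‖zz N sp (cut r α) j‖ ≤ ‖zz N sp α j‖ := by
  unfold zz
  split_ifs
  · exact le_rfl
  · rw [ph_cut]
    split_ifs
    · exact le_rfl
    · rw [norm_zero]
      exact norm_nonneg _

/-- Grunblum's condition with constant `5`. -/
theorem nu_cut (hc : ∀ j s, ‖c j s‖ ≤ 4) (α : ℕ → 𝕜) (r : ℕ) :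
    nu M N sp c (cut r α) ≤ 5 * nu M N sp c α := by
  rw [nu_eq, nu_eq]
  have h1 : ∑ s ∈ range N, va M N (cut r α) s ≤ ∑ s ∈ range N, va M N α s :=
    sum_le_sum fun s _ => va_cut α r s
  have h2 : ∑ j ∈ range M, ‖zz N sp (cut r α) j‖ ≤ ∑ j ∈ range M, ‖zz N sp α j‖ :=
    sum_le_sum fun j _ => zz_cut α r j
  have hV : 0 ≤ ∑ s ∈ range N, va M N α s := sum_nonneg fun s _ => va_nonneg α s
  have h3 : ∑ j ∈ range M, ‖uu M N sp c (cut r α) j‖ ≤
      ∑ j ∈ range M, ‖uu M N sp c α j‖ + 4 * ∑ s ∈ range N, va M N α s := by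
    have h4 : ∀ j ∈ range M, ‖uu M N sp c (cut r α) j‖ ≤ ‖uu M N sp c α j‖ +
        (if j = r / (N + 1) then 4 * ∑ s ∈ range N, va M N α s else 0) := by
      intro j _
      have hr := Nat.div_add_mod r (N + 1)
      have hr2 := Nat.mod_lt r (Nat.succ_pos N)
      rcases lt_trichotomy j (r / (N + 1)) with h | h | h
      · rw [if_neg h.ne, add_zero, uu_cut_lt α]
        calc (j + 1) * (N + 1) ≤ (r / (N + 1)) * (N + 1) := Nat.mul_le_mul_right _ h
          _ ≤ r := Nat.div_mul_le_self _ _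
      · rw [if_pos h]
        rcases lt_or_ge (j * (N + 1)) r with h5 | h5
        · exact uu_cut_le hc α h5
        · rw [uu_cut_gt α h5, norm_zero]
          positivity
      · rw [if_neg h.ne', add_zero, uu_cut_gt α, norm_zero]
        · exact norm_nonneg _
        · have h7 : (r / (N + 1) + 1) * (N + 1) ≤ j * (N + 1) := Nat.mul_le_mul_right _ h
          have h6 : (r / (N + 1) + 1) * (N + 1) = (N + 1) * (r / (N + 1)) + (N + 1) := by ring
          rw [Nat.succ_eq_add_one] at hr2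
          omega
    refine (sum_le_sum h4).trans ?_
    rw [sum_add_distrib]
    refine add_le_add le_rfl ?_
    rw [sum_ite_eq']
    split_ifs
    · exact le_rfl
    · positivity
  have h5 : 0 ≤ ∑ j ∈ range M, ‖uu M N sp c α j‖ := sum_nonneg fun _ _ => norm_nonneg _
  have h6 : 0 ≤ ∑ j ∈ range M, ‖zz N sp α j‖ := sum_nonneg fun _ _ => norm_nonneg _
  linarith

end grun

end Pool.Agent.H42.NP
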