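import Pool.Agent.H42.NP.Force

/-!
# The bad pair vector
-/

set_option autoImplicit false

namespace Pool.Agent.H42.NP

open Finset

variable {𝕜 : Type*} [RCLike 𝕜]

/-- `+1` on the interval `l₁`, `-1` on the interval `l₂` -/
def sl (𝕜 : Type*) [RCLike 𝕜] (l₁ l₂ l : ℕ) : 𝕜 :=
  (if l = l₁ then 1 else 0) - (if l = l₂ then 1 else 0)

/-- the bad pair vector, `k = ((l * n + i) * m + j) * 2 + τ` -/
def bp (n m l₁ l₂ : ℕ) (b : ℕ → 𝕜) (k : ℕ) : 𝕜 :=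
  (if k % 2 = 0 then 1 else -1) * (sl 𝕜 l₁ l₂ (k / 2 / m / n) * b (k / 2 / m % n))

/-- the vectors in the block `F` -/
noncomputable def vx {E : Type*} [NormedAddCommGroup E] [NormedSpace 𝕜 E] (n m : ℕ) (x : ℕ → E)
    (k : ℕ) : E :=
  if k % 2 = 0 then ((m : 𝕜)⁻¹) • x (k / 2 / m % n) else 0

lemma norm_sl_sum_le (l₁ l₂ a : ℕ) : ‖∑ l ∈ range a, sl 𝕜 l₁ l₂ l‖ ≤ 1 := by
  unfold sl
  rw [sum_sub_distrib, sum_delta, sum_delta]
  split_ifs <;> simp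

lemma norm_sl_le (l₁ l₂ l : ℕ) : ‖sl 𝕜 l₁ l₂ l‖ ≤ 1 := by
  unfold sl
  split_ifs <;> simp

section

variable {n m l₁ l₂ : ℕ} {b : ℕ → 𝕜}

lemma bp_partial (hn : 0 < n) {R : ℝ} (hb : ∀ i < n, ‖b i‖ ≤ R) (t : ℕ) :
    ‖∑ k ∈ range t, bp n m l₁ l₂ b k‖ ≤ R := by
  have hR : 0 ≤ R := (norm_nonneg _).trans (hb 0 hn)
  obtain ⟨a, c, hc, rfl⟩ : ∃ a c, c < 2 ∧ t = a * 2 + c :=
    ⟨t / 2, t % 2, Nat.mod_lt _ two_pos, (Nat.div_add_mod' t 2).symm⟩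
  have h1 : ∀ a, bp n m l₁ l₂ b (a * 2) = sl 𝕜 l₁ l₂ (a / m / n) * b (a / m % n) := by
    intro a
    unfold bp
    rw [Nat.mul_mod_left, if_pos rfl, Nat.mul_div_cancel _ two_pos, one_mul]
  have h2 : ∀ a, bp n m l₁ l₂ b (a * 2 + 1) = -(sl 𝕜 l₁ l₂ (a / m / n) * b (a / m % n)) := by
    intro a
    unfold bp
    rw [show (a * 2 + 1) % 2 = 1 by omega, show (a * 2 + 1) / 2 = a by omega,
      if_neg one_ne_zero]
    ring
  rw [sum_blocks']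
  have h3 : ∀ i ∈ range a, ∑ r ∈ range 2, bp n m l₁ l₂ b (i * 2 + r) = 0 := by
    intro i _
    rw [sum_range_succ, sum_range_one, add_zero, h1, h2, add_neg_cancel]
  rw [sum_congr rfl h3, sum_const_zero, zero_add]
  rcases (by omega : c = 0 ∨ c = 1) with rfl | rfl
  · rw [sum_range_zero, norm_zero]
    exact hR
  · rw [sum_range_one, add_zero, h1, norm_mul]
    calc ‖sl 𝕜 l₁ l₂ (a / m / n)‖ * ‖b (a / m % n)‖ ≤ 1 * R :=
          mul_le_mul (norm_sl_le _ _ _) (hb _ (Nat.mod_lt _ hn)) (norm_nonneg _) zero_le_one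
      _ = R := one_mul R

variable {E : Type*} [NormedAddCommGroup E] [NormedSpace 𝕜 E] {x : ℕ → E}

/-- contributions of the blocks of `m` pairs -/
def gu (n l₁ l₂ : ℕ) (b : ℕ → 𝕜) (x : ℕ → E) (u : ℕ) : E :=
  sl 𝕜 l₁ l₂ (u / n) • b (u % n) • x (u % n)

lemma bp_smul_vx (a : ℕ) : bp n m l₁ l₂ b (a * 2) • vx (𝕜 := 𝕜) n m x (a * 2) =
    ((m : 𝕜)⁻¹) • gu n l₁ l₂ b x (a / m) := by
  unfold bp vx gu
  rw [Nat.mul_mod_left, if_pos rfl, if_pos rfl, Nat.mul_div_cancel _ two_pos, one_mul,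
    smul_comm, mul_smul]

lemma bp_smul_vx' (a : ℕ) : bp n m l₁ l₂ b (a * 2 + 1) • vx (𝕜 := 𝕜) n m x (a * 2 + 1) = 0 := by
  unfold vx
  rw [show (a * 2 + 1) % 2 = 1 by omega, if_neg one_ne_zero, smul_zero]

lemma vsum_pairs (a : ℕ) {c : ℕ} (hc : c < 2) :
    ∑ k ∈ range (a * 2 + c), bp n m l₁ l₂ b k • vx (𝕜 := 𝕜) n m x k =
      ∑ p ∈ range (a + c), ((m : 𝕜)⁻¹) • gu n l₁ l₂ b x (p / m) := by
  rw [sum_blocks', sum_range_add]
  congr 1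
  · refine sum_congr rfl fun i _ => ?_
    rw [sum_range_succ, sum_range_one, add_zero, bp_smul_vx, bp_smul_vx', add_zero]
  · rcases (by omega : c = 0 ∨ c = 1) with rfl | rfl
    · rw [sum_range_zero, sum_range_zero]
    · rw [sum_range_one, sum_range_one, add_zero, add_zero, bp_smul_vx]

lemma vsum_spread (hm : 0 < m) (u : ℕ) {c : ℕ} (hc : c < m) :
    ∑ p ∈ range (u * m + c), ((m : 𝕜)⁻¹) • gu n l₁ l₂ b x (p / m) =
      ∑ v ∈ range u, gu n l₁ l₂ b x v + ((c : 𝕜) * (m : 𝕜)⁻¹) • gu n l₁ l₂ b x u := by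
  have hm' : (m : 𝕜) ≠ 0 := by exact_mod_cast hm.ne'
  have hd : ∀ v r, r < m → (v * m + r) / m = v := by
    intro v r hr
    rw [mul_comm, Nat.mul_add_div hm, Nat.div_eq_of_lt hr, add_zero]
  rw [sum_blocks']
  congr 1
  · refine sum_congr rfl fun v _ => ?_
    rw [sum_congr rfl fun r hr => by rw [hd v r (mem_range.1 hr)], sum_const, card_range,
      ← Nat.cast_smul_eq_nsmul 𝕜, smul_smul, mul_inv_cancel₀ hm', one_smul]
  · rw [sum_congr rfl fun r hr => by rw [hd u r ((mem_range.1 hr).trans hc)], sum_const,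
      card_range, ← Nat.cast_smul_eq_nsmul 𝕜, smul_smul]

lemma gsum (hn : 0 < n) (l : ℕ) {i : ℕ} (hi : i ≤ n) :
    ∑ v ∈ range (l * n + i), gu n l₁ l₂ b x v =
      (∑ l' ∈ range l, sl 𝕜 l₁ l₂ l') • ∑ i' ∈ range n, b i' • x i' +
        sl 𝕜 l₁ l₂ l • ∑ i' ∈ range i, b i' • x i' := by
  have hg : ∀ v r, r < n → gu n l₁ l₂ b x (v * n + r) = sl 𝕜 l₁ l₂ v • b r • x r := by
    intro v r hr
    unfold gu
    have h1 : (v * n + r) / n = v := by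
      rw [mul_comm, Nat.mul_add_div hn, Nat.div_eq_of_lt hr, add_zero]
    have h2 : (v * n + r) % n = r := by
      rw [mul_comm, Nat.mul_add_mod, Nat.mod_eq_of_lt hr]
    rw [h1, h2]
  rw [sum_blocks', sum_smul]
  congr 1
  · refine sum_congr rfl fun v _ => ?_
    rw [sum_congr rfl fun r hr => hg v r (mem_range.1 hr), smul_sum]
  · rw [sum_congr rfl fun r hr => hg l r ((mem_range.1 hr).trans_le hi), smul_sum]

lemma norm_gsum_le (hn : 0 < n) {R : ℝ} (hR : ∀ i ≤ n, ‖∑ i' ∈ range i, b i' • x i'‖ ≤ R)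
    (u : ℕ) : ‖∑ v ∈ range u, gu n l₁ l₂ b x v‖ ≤ 2 * R := by
  obtain ⟨l, i, hi, rfl⟩ : ∃ l i, i < n ∧ u = l * n + i :=
    ⟨u / n, u % n, Nat.mod_lt _ hn, (Nat.div_add_mod' u n).symm⟩
  rw [gsum hn l hi.le]
  refine (norm_add_le _ _).trans ?_
  rw [norm_smul, norm_smul]
  have h1 := mul_le_mul (norm_sl_sum_le (𝕜 := 𝕜) l₁ l₂ l) (hR n le_rfl) (norm_nonneg _)
    zero_le_one
  have h2 := mul_le_mul (norm_sl_le (𝕜 := 𝕜) l₁ l₂ l) (hR i hi.le) (norm_nonneg _) zero_le_one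
  linarith

/-- partial sums of the bad pair vector in the block `F` -/
lemma vsum_partial (hn : 0 < n) (hm : 0 < m) {R : ℝ}
    (hR : ∀ i ≤ n, ‖∑ i' ∈ range i, b i' • x i'‖ ≤ R) (t : ℕ) :
    ‖∑ k ∈ range t, bp n m l₁ l₂ b k • vx (𝕜 := 𝕜) n m x k‖ ≤ 2 * R := by
  obtain ⟨a, c, hc, rfl⟩ : ∃ a c, c < 2 ∧ t = a * 2 + c :=
    ⟨t / 2, t % 2, Nat.mod_lt _ two_pos, (Nat.div_add_mod' t 2).symm⟩
  rw [vsum_pairs a hc]
  obtain ⟨u, e, he, hae⟩ : ∃ u e, e < m ∧ a + c = u * m + e :=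
    ⟨(a + c) / m, (a + c) % m, Nat.mod_lt _ hm, (Nat.div_add_mod' (a + c) m).symm⟩
  rw [hae, vsum_spread hm u he]
  have hm' : (0 : ℝ) < m := by exact_mod_cast hm
  have hm'' : (m : 𝕜) ≠ 0 := by exact_mod_cast hm.ne'
  have h1 : ∑ v ∈ range u, gu n l₁ l₂ b x v + ((e : 𝕜) * (m : 𝕜)⁻¹) • gu n l₁ l₂ b x u =
      (((m - e : ℕ) : 𝕜) * (m : 𝕜)⁻¹) • ∑ v ∈ range u, gu n l₁ l₂ b x v +
        ((e : 𝕜) * (m : 𝕜)⁻¹) • ∑ v ∈ range (u + 1), gu n l₁ l₂ b x v := by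
    rw [sum_range_succ, smul_add, ← add_assoc, ← add_smul, ← add_mul]
    have h2 : (((m - e : ℕ) : 𝕜) + (e : 𝕜)) * (m : 𝕜)⁻¹ = 1 := by
      rw [← Nat.cast_add, Nat.sub_add_cancel he.le, mul_inv_cancel₀ hm'']
    rw [h2, one_smul]
  rw [h1]
  refine (norm_add_le _ _).trans ?_
  rw [norm_smul, norm_smul, norm_mul, norm_mul, norm_inv, RCLike.norm_natCast,
    RCLike.norm_natCast, RCLike.norm_natCast]
  have h3 := norm_gsum_le (𝕜 := 𝕜) (l₁ := l₁) (l₂ := l₂) hn hR u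
  have h4 := norm_gsum_le (𝕜 := 𝕜) (l₁ := l₁) (l₂ := l₂) hn hR (u + 1)
  have h5 : ((m - e : ℕ) : ℝ) * (m : ℝ)⁻¹ + (e : ℝ) * (m : ℝ)⁻¹ = 1 := by
    rw [← add_mul, ← Nat.cast_add, Nat.sub_add_cancel he.le, mul_inv_cancel₀ hm'.ne']
  calc ((m - e : ℕ) : ℝ) * (m : ℝ)⁻¹ * ‖∑ v ∈ range u, gu n l₁ l₂ b x v‖ +
        (e : ℝ) * (m : ℝ)⁻¹ * ‖∑ v ∈ range (u + 1), gu n l₁ l₂ b x v‖ ≤
        ((m - e : ℕ) : ℝ) * (m : ℝ)⁻¹ * (2 * R) + (e : ℝ) * (m : ℝ)⁻¹ * (2 * R) := by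
        refine add_le_add (mul_le_mul_of_nonneg_left h3 (by positivity))
          (mul_le_mul_of_nonneg_left h4 (by positivity))
    _ = 2 * R := by rw [← add_mul, h5, one_mul]

lemma vsum_full (hn : 0 < n) (hm : 0 < m) (l : ℕ) :
    ∑ k ∈ range (l * (n * m * 2)), bp n m l₁ l₂ b k • vx (𝕜 := 𝕜) n m x k =
      (∑ l' ∈ range l, sl 𝕜 l₁ l₂ l') • ∑ i' ∈ range n, b i' • x i' := by
  have h1 : l * (n * m * 2) = (l * n * m) * 2 + 0 := by ring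
  have h2 : l * n * m + 0 = (l * n) * m + 0 := rfl
  have h3 : l * n = l * n + 0 := rfl
  rw [h1, vsum_pairs _ two_pos, h2, vsum_spread hm _ hm, Nat.cast_zero, zero_mul, zero_smul,
    add_zero, h3, gsum hn l (Nat.zero_le n), sum_range_zero, smul_zero, add_zero]

/-- the total sum vanishes -/
lemma vsum_zero (hn : 0 < n) (hm : 0 < m) {L : ℕ} (h₁ : l₁ < L) (h₂ : l₂ < L) :
    ∑ k ∈ range (L * (n * m * 2)), bp n m l₁ l₂ b k • vx (𝕜 := 𝕜) n m x k = 0 := by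
  rw [vsum_full hn hm]
  unfold sl
  rw [sum_sub_distrib, sum_delta, sum_delta, if_pos h₁, if_pos h₂, sub_self, zero_smul]

/-- the restriction to a set containing the interval `l₁` and missing the interval `l₂` -/
lemma vsum_chi (hn : 0 < n) (hm : 0 < m) {L : ℕ} (h₁ : l₁ < L) (χ : ℕ → Prop)
    [DecidablePred χ] (hχ₁ : ∀ i < n * m * 2, χ (l₁ * (n * m * 2) + i))
    (hχ₂ : ∀ i < n * m * 2, ¬ χ (l₂ * (n * m * 2) + i)) :
    ∑ k ∈ range (L * (n * m * 2)), (if χ k then bp n m l₁ l₂ b k else 0) •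
      vx (𝕜 := 𝕜) n m x k = ∑ i' ∈ range n, b i' • x i' := by
  have hB : 0 < n * m * 2 := by positivity
  have hne : l₁ ≠ l₂ := by
    rintro rfl
    exact hχ₂ 0 hB (hχ₁ 0 hB)
  have hdiv : ∀ l i, i < n * m * 2 → (l * (n * m * 2) + i) / 2 / m / n = l := by
    intro l i hi
    rw [Nat.div_div_eq_div_mul, Nat.div_div_eq_div_mul,
      show 2 * (m * n) = n * m * 2 by ring, mul_comm l, Nat.mul_add_div hB, Nat.div_eq_of_lt hi,
      add_zero]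
  rw [sum_blocks, Finset.sum_eq_single l₁]
  · rw [sum_congr rfl fun i hi => by rw [if_pos (hχ₁ i (mem_range.1 hi))]]
    have h1 := vsum_full (𝕜 := 𝕜) (l₁ := l₁) (l₂ := l₂) (b := b) (x := x) hn hm (l₁ + 1)
    have h2 := vsum_full (𝕜 := 𝕜) (l₁ := l₁) (l₂ := l₂) (b := b) (x := x) hn hm l₁
    rw [add_mul, one_mul, sum_range_add, h2, sum_range_succ, add_smul] at h1
    rw [add_left_cancel h1]
    unfold sl
    rw [if_pos rfl, if_neg hne, sub_zero, one_smul]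
  · intro l _ hl
    refine sum_eq_zero fun i hi => ?_
    rw [mem_range] at hi
    by_cases h2 : l = l₂
    · rw [h2, if_neg (hχ₂ i hi), zero_smul]
    · have : bp n m l₁ l₂ b (l * (n * m * 2) + i) = 0 := by
        unfold bp sl
        rw [hdiv l i hi, if_neg hl, if_neg h2, sub_zero, zero_mul, mul_zero]
      rw [this, ite_self, zero_smul]
  · intro h
    exact absurd (mem_range.2 h₁) h

end

end Pool.Agent.H42.NP
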