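import Pool.Agent.H42.NP.Defs
import Pool.Agent.H42.NP.Block
import Pool.Agent.H14.NP.Tail

/-!
# `ℓ_1^n`'s in the tails of a basis
-/

set_option autoImplicit false

namespace Pool.Agent.H42.NP

open Finset Filter Topology

variable {𝕜 : Type*} [RCLike 𝕜]
variable {E : Type*} [NormedAddCommGroup E] [NormedSpace 𝕜 E]

lemma lower_comp {n' p : ℕ} {z : Fin n' → E}
    (hz : ∀ a : Fin n' → 𝕜, ∑ i, ‖a i‖ ≤ ‖∑ i, a i • z i‖) {f : Fin p → Fin n'}
    (hf : Function.Injective f) (a : Fin p → 𝕜) : ∑ s, ‖a s‖ ≤ ‖∑ s, a s • z (f s)‖ := by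
  classical
  have h1 := hz (Function.extend f a 0)
  have h2 : ∑ s, ‖a s‖ = ∑ j, ‖Function.extend f a 0 j‖ := by
    refine Fintype.sum_of_injective f hf _ _ (fun j hj => ?_) (fun s => ?_)
    · rw [Function.extend_apply' _ _ _ (by rintro ⟨s, rfl⟩; exact hj ⟨s, rfl⟩), Pi.zero_apply,
        norm_zero]
    · rw [hf.extend_apply]
  have h3 : ∑ s, a s • z (f s) = ∑ j, Function.extend f a 0 j • z j := by
    refine Fintype.sum_of_injective f hf _ _ (fun j hj => ?_) (fun s => ?_)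
    · rw [Function.extend_apply' _ _ _ (by rintro ⟨s, rfl⟩; exact hj ⟨s, rfl⟩), Pi.zero_apply,
        zero_smul]
    · rw [hf.extend_apply]
  rw [h2, h3]
  exact h1

theorem ContainsEllOne.tail (h : ContainsEllOne 𝕜 E) (P : ℕ → E →L[𝕜] E) (CP : ℝ)
    (hPC : ∀ n, ‖P n‖ ≤ CP) (hPP : ∀ n m v, P n (P m v) = P (min n m) v)
    (hPt : ∀ v, Tendsto (fun n => P n v) atTop (𝓝 v))
    (hPf : ∀ n, ∃ V : Submodule 𝕜 E, FiniteDimensional 𝕜 V ∧ ∀ v, P n v ∈ V) :
    ∃ C₁ : ℝ, 0 ≤ C₁ ∧ TailL1 P C₁ := by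
  classical
  obtain ⟨C, hC⟩ := h
  have hC0 : 0 ≤ C := by
    obtain ⟨z, hz, -⟩ := hC 1
    exact (norm_nonneg _).trans (hz 0)
  have hCP0 : 0 ≤ CP := (norm_nonneg _).trans (hPC 0)
  refine ⟨2 * CP * (2 * C), by positivity, fun n k => ?_⟩
  obtain ⟨V, hVf, hV⟩ := hPf k
  obtain ⟨n', hn'⟩ := Pool.Agent.H14.NP.exists_close (V := V) (CP * C) (1 / 4) (by norm_num) (n + n)
  obtain ⟨z, hz1, hz2⟩ := hC n'
  obtain ⟨f, hf, hfc⟩ := hn' (fun j => P k (z j)) (fun j => hV _) (fun j =>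
    ((P k).le_opNorm _).trans (mul_le_mul (hPC k) (hz1 j) (norm_nonneg _) hCP0))
  obtain ⟨w, hw⟩ : ∃ w : Fin n → E, ∀ t, w t = z (f (Fin.castAdd n t)) - z (f (Fin.natAdd n t)) :=
    ⟨_, fun t => rfl⟩
  have hw1 : ∀ t, ‖w t‖ ≤ 2 * C := by
    intro t
    rw [hw]
    refine (norm_sub_le _ _).trans ?_
    linarith [hz1 (f (Fin.castAdd n t)), hz1 (f (Fin.natAdd n t))]
  have hw2 : ∀ t, ‖P k (w t)‖ ≤ 1 / 4 := by
    intro t
    rw [hw, map_sub]
    exact hfc _ _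
  have hw3 : ∀ a : Fin n → 𝕜, 2 * ∑ t, ‖a t‖ ≤ ‖∑ t, a t • w t‖ := by
    intro a
    have h1 := lower_comp hz2 hf (Fin.append a (fun t => - a t))
    rw [Fin.sum_univ_add, Fin.sum_univ_add] at h1
    simp only [Fin.append_left, Fin.append_right, norm_neg] at h1
    have h2 : ∑ t, a t • w t = ∑ t, a t • z (f (Fin.castAdd n t)) +
        ∑ t, (- a t) • z (f (Fin.natAdd n t)) := by
      rw [← sum_add_distrib]
      exact sum_congr rfl fun t _ => by rw [hw, smul_sub, neg_smul, sub_eq_add_neg]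
    rw [h2]
    linarith
  obtain ⟨l, hkl, hl⟩ : ∃ l, k ≤ l ∧ ∀ t, ‖w t - P l (w t)‖ ≤ 1 / 4 := by
    have h1 : ∀ t : Fin n, ∀ᶠ l in atTop, ‖w t - P l (w t)‖ ≤ 1 / 4 := by
      intro t
      have := (tendsto_const_nhds (x := w t)).sub (hPt (w t))
      rw [sub_self] at this
      have h2 := this.norm
      rw [norm_zero] at h2
      exact h2.eventually (eventually_le_nhds (by norm_num))
    obtain ⟨l, hl1, hl2⟩ := ((eventually_all.2 h1).and (eventually_ge_atTop k)).exists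
    exact ⟨l, hl2, hl1⟩
  refine ⟨l, fun t => P l (w t) - P k (w t), hkl, fun t => ?_, fun t => ?_, fun t => ?_,
    fun a => ?_⟩
  · rw [map_sub, hPP, hPP, min_self, min_eq_right hkl]
  · rw [map_sub, hPP, hPP, min_self, min_eq_left hkl, sub_self]
  · refine (norm_sub_le _ _).trans ?_
    have h1 : ∀ j, ‖P j (w t)‖ ≤ CP * (2 * C) := fun j =>
      ((P j).le_opNorm _).trans (mul_le_mul (hPC j) (hw1 t) (norm_nonneg _) hCP0)
    linarith [h1 l, h1 k]
  · have h1 : ∑ t, a t • w t = ∑ t, a t • (P l (w t) - P k (w t)) +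
        ∑ t, a t • ((w t - P l (w t)) + P k (w t)) := by
      rw [← sum_add_distrib]
      refine sum_congr rfl fun t _ => ?_
      rw [← smul_add]
      congr 1
      abel
    have h2 : ‖∑ t, a t • ((w t - P l (w t)) + P k (w t))‖ ≤ ∑ t, ‖a t‖ := by
      refine (norm_sum_le _ _).trans (sum_le_sum fun t _ => ?_)
      rw [norm_smul]
      refine mul_le_of_le_one_right (norm_nonneg _) ((norm_add_le _ _).trans ?_)
      linarith [hl t, hw2 t]
    have h3 := hw3 a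
    have h4 : ‖∑ t, a t • w t‖ ≤ ‖∑ t, a t • (P l (w t) - P k (w t))‖ +
        ‖∑ t, a t • ((w t - P l (w t)) + P k (w t))‖ := by
      rw [h1]
      exact norm_add_le _ _
    linarith

end Pool.Agent.H42.NP
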