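import Pool.Agent.H42.NP.Cube

/-!
# The space `V = ℓ_∞` containing the order-forcing sequence, with its basis
-/

set_option autoImplicit false

namespace Pool.Agent.H42.NP

open Finset

variable {𝕜 : Type*} [RCLike 𝕜]

section

variable {D q : ℕ}

/-- evaluation at natural indices -/
def ev (z : Fin D × Fin (q + 1) → 𝕜) (t l : ℕ) : 𝕜 :=
  if h : t < D ∧ l < q + 1 then z (⟨t, h.1⟩, ⟨l, h.2⟩) else 0

/-- evaluation at the previous index -/
def pv (z : Fin D × Fin (q + 1) → 𝕜) (k l : ℕ) : 𝕜 := if k = 0 then 0 else ev z (k - 1) l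

lemma ev_fin (z : Fin D × Fin (q + 1) → 𝕜) (t : Fin D) (l : Fin (q + 1)) :
    ev z t l = z (t, l) := dif_pos ⟨t.2, l.2⟩

lemma norm_ev_le (z : Fin D × Fin (q + 1) → 𝕜) (t l : ℕ) : ‖ev z t l‖ ≤ ‖z‖ := by
  unfold ev
  split_ifs
  · exact norm_le_pi_norm z _
  · rw [norm_zero]
    exact norm_nonneg _

lemma norm_pv_le (z : Fin D × Fin (q + 1) → 𝕜) (k l : ℕ) : ‖pv z k l‖ ≤ ‖z‖ := by
  unfold pv
  split_ifs
  · rw [norm_zero]
    exact norm_nonneg _
  · exact norm_ev_le _ _ _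

lemma ev_add (z y : Fin D × Fin (q + 1) → 𝕜) (t l : ℕ) :
    ev (z + y) t l = ev z t l + ev y t l := by
  unfold ev
  split_ifs
  · rfl
  · rw [add_zero]

lemma ev_smul (a : 𝕜) (z : Fin D × Fin (q + 1) → 𝕜) (t l : ℕ) :
    ev (a • z) t l = a * ev z t l := by
  unfold ev
  split_ifs
  · rfl
  · rw [mul_zero]

lemma pv_add (z y : Fin D × Fin (q + 1) → 𝕜) (t l : ℕ) :
    pv (z + y) t l = pv z t l + pv y t l := by
  unfold pv
  split_ifs
  · rw [add_zero]
  · exact ev_add _ _ _ _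

lemma pv_smul (a : 𝕜) (z : Fin D × Fin (q + 1) → 𝕜) (t l : ℕ) :
    pv (a • z) t l = a * pv z t l := by
  unfold pv
  split_ifs
  · rw [mul_zero]
  · exact ev_smul _ _ _ _

/-- value of the coordinate functional with index `(k, l)` -/
def cv (h : ℕ → ℕ → 𝕜) (k l : ℕ) (z : Fin D × Fin (q + 1) → 𝕜) : 𝕜 :=
  (ev z k l - pv z k l) - (if l = 0 then 0 else h k l * (ev z k 0 - pv z k 0))

/-- coordinate functionals of the basis of `V` -/
def cfn (D q : ℕ) (h : ℕ → ℕ → 𝕜) (j : ℕ) : (Fin D × Fin (q + 1) → 𝕜) →ₗ[𝕜] 𝕜 where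
  toFun z := cv h (j / (q + 1)) (j % (q + 1)) z
  map_add' z y := by
    unfold cv
    simp only [ev_add, pv_add]
    split_ifs <;> ring
  map_smul' a z := by
    unfold cv
    simp only [ev_smul, pv_smul, RingHom.id_apply, smul_eq_mul]
    split_ifs <;> ring

/-- the basis vector with index `(k, l)` -/
def wk (D q : ℕ) (h : ℕ → ℕ → 𝕜) (k l : ℕ) : Fin D × Fin (q + 1) → 𝕜 := fun x =>
  if k ≤ (x.1 : ℕ) then (if l = 0 then h k x.2 else if (x.2 : ℕ) = l then 1 else 0) else 0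

/-- the basis of `V` -/
def wv (D q : ℕ) (h : ℕ → ℕ → 𝕜) (j : ℕ) : Fin D × Fin (q + 1) → 𝕜 :=
  wk D q h (j / (q + 1)) (j % (q + 1))

omit [RCLike 𝕜] in
lemma dm_div (k : ℕ) {l : ℕ} (hl : l < q + 1) : (k * (q + 1) + l) / (q + 1) = k := by
  rw [mul_comm, Nat.mul_add_div (Nat.succ_pos q), Nat.div_eq_of_lt hl, add_zero]

omit [RCLike 𝕜] in
lemma dm_mod (k : ℕ) {l : ℕ} (hl : l < q + 1) : (k * (q + 1) + l) % (q + 1) = l := by
  rw [mul_comm, Nat.mul_add_mod, Nat.mod_eq_of_lt hl]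

lemma cfn_apply (h : ℕ → ℕ → 𝕜) (k : ℕ) {l : ℕ} (hl : l < q + 1)
    (z : Fin D × Fin (q + 1) → 𝕜) : cfn D q h (k * (q + 1) + l) z = cv h k l z := by
  change cv h ((k * (q + 1) + l) / (q + 1)) ((k * (q + 1) + l) % (q + 1)) z = _
  rw [dm_div k hl, dm_mod k hl]

lemma wv_apply (h : ℕ → ℕ → 𝕜) (k : ℕ) {l : ℕ} (hl : l < q + 1) :
    wv D q h (k * (q + 1) + l) = wk D q h k l := by
  unfold wv
  rw [dm_div k hl, dm_mod k hl]

/-- expected partial sums -/
def ps (h : ℕ → ℕ → 𝕜) (z : Fin D × Fin (q + 1) → 𝕜) (k r : ℕ) (t l : ℕ) : 𝕜 :=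
  if t < k then ev z t l else if l < r then ev z k l else
    pv z k l + (if r = 0 then 0 else h k l * (ev z k 0 - pv z k 0))

lemma norm_ps_le {h : ℕ → ℕ → 𝕜} (hh : ∀ k l, ‖h k l‖ ≤ 1) (z : Fin D × Fin (q + 1) → 𝕜)
    (k r t l : ℕ) : ‖ps h z k r t l‖ ≤ 3 * ‖z‖ := by
  have h0 := norm_nonneg z
  unfold ps
  split_ifs with h1 h2 h3
  · linarith [norm_ev_le z t l]
  · linarith [norm_ev_le z k l]
  · rw [add_zero]
    linarith [norm_pv_le z k l]
  · refine (norm_add_le _ _).trans ?_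
    rw [norm_mul]
    have h4 : ‖ev z k 0 - pv z k 0‖ ≤ 2 * ‖z‖ := by
      refine (norm_sub_le _ _).trans ?_
      linarith [norm_ev_le z k 0, norm_pv_le z k 0]
    have h5 : ‖h k l‖ * ‖ev z k 0 - pv z k 0‖ ≤ 1 * (2 * ‖z‖) :=
      mul_le_mul (hh k l) h4 (norm_nonneg _) zero_le_one
    linarith [norm_pv_le z k l]

lemma partial_sum {h : ℕ → ℕ → 𝕜} (h0 : ∀ k, h k 0 = 1) (z : Fin D × Fin (q + 1) → 𝕜)
    (x : Fin D × Fin (q + 1)) (k : ℕ) : ∀ r ≤ q + 1,
    ∑ i ∈ range (k * (q + 1) + r), cfn D q h i z * wv D q h i x = ps h z k r x.1 x.2 := by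
  obtain ⟨t, l⟩ := x
  have hl := l.2
  have step : ∀ k, (∑ i ∈ range (k * (q + 1)), cfn D q h i z * wv D q h i (t, l) =
      ps h z k 0 t l) → ∀ r ≤ q + 1,
      ∑ i ∈ range (k * (q + 1) + r), cfn D q h i z * wv D q h i (t, l) = ps h z k r t l := by
    intro k hk r
    induction r with
    | zero => exact fun _ => hk
    | succ r ih =>
      intro hr
      rw [← add_assoc, sum_range_succ, ih (by omega), cfn_apply h k (by omega),
        wv_apply h k (by omega)]
      unfold ps wk cv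
      simp only
      by_cases h1 : (t : ℕ) < k
      · rw [if_pos h1, if_pos h1, if_neg (by omega : ¬ k ≤ (t : ℕ)), mul_zero, add_zero]
      · rw [if_neg h1, if_neg h1, if_pos (by omega : k ≤ (t : ℕ))]
        rcases Nat.eq_zero_or_pos r with rfl | hr0
        · rw [if_neg (by omega : ¬ (l : ℕ) < 0), if_pos rfl, if_pos rfl, if_pos rfl]
          by_cases h2 : (l : ℕ) = 0
          · rw [h2, if_pos (by omega : 0 < 0 + 1), h0]
            ring
          · rw [if_neg (by omega : ¬ (l : ℕ) < 0 + 1), if_neg (by omega : ¬ (0 + 1 = 0))]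
            ring
        · have hr1 : ¬ r = 0 := by omega
          simp only [if_neg hr1, if_neg (Nat.succ_ne_zero r)]
          by_cases h2 : (l : ℕ) < r
          · rw [if_pos h2, if_pos (by omega : (l : ℕ) < r + 1), if_neg (by omega : ¬ (l : ℕ) = r),
              mul_zero, add_zero]
          · by_cases h3 : (l : ℕ) = r
            · rw [if_neg h2, if_pos (by omega : (l : ℕ) < r + 1), if_pos h3, h3]
              ring
            · rw [if_neg h2, if_neg (by omega : ¬ (l : ℕ) < r + 1), if_neg h3, mul_zero,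
                add_zero]
  refine step k ?_
  induction k with
  | zero =>
    rw [zero_mul, sum_range_zero]
    unfold ps pv
    simp
  | succ k ih =>
    have h2 := step k ih (q + 1) le_rfl
    rw [show (k + 1) * (q + 1) = k * (q + 1) + (q + 1) by ring, h2]
    unfold ps
    by_cases h3 : (t : ℕ) < k
    · rw [if_pos h3, if_pos (by omega)]
    · rw [if_neg h3, if_pos hl]
      by_cases h4 : (t : ℕ) < k + 1
      · rw [if_pos h4]
        have : (t : ℕ) = k := by omega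
        rw [this]
      · rw [if_neg h4, if_neg (by omega), if_pos rfl, add_zero]
        unfold pv
        rw [if_neg (Nat.succ_ne_zero k), Nat.add_sub_cancel]

end

end Pool.Agent.H42.NP
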