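import Pool.Agent.H42.NP.VConc

/-!
# The data `VData` for the concrete space, and the special vectors
-/

set_option autoImplicit false

namespace Pool.Agent.H42.NP

open Finset

lemma sum_blocks {A : Type*} [AddCommMonoid A] (g : ℕ → A) (a B : ℕ) :
    ∑ k ∈ range (a * B), g k = ∑ i ∈ range a, ∑ r ∈ range B, g (i * B + r) := by
  induction a with
  | zero => simp
  | succ a ih =>
    rw [sum_range_succ, ← ih, show (a + 1) * B = a * B + B by ring, sum_range_add]

lemma sum_blocks' {A : Type*} [AddCommMonoid A] (g : ℕ → A) (a B r : ℕ) :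
    ∑ k ∈ range (a * B + r), g k =
      ∑ i ∈ range a, ∑ r ∈ range B, g (i * B + r) + ∑ i ∈ range r, g (a * B + i) := by
  rw [sum_range_add, sum_blocks]

variable {𝕜 : Type*} [RCLike 𝕜]

section

variable {D q : ℕ}

lemma ev_wk (h : ℕ → ℕ → 𝕜) (k l : ℕ) {t l' : ℕ} (ht : t < D) (hl' : l' < q + 1) :
    ev (wk D q h k l) t l' =
      if k ≤ t then (if l = 0 then h k l' else if l' = l then 1 else 0) else 0 := by
  unfold ev wk
  rw [dif_pos ⟨ht, hl'⟩]

lemma ev_sub_pv_wk (h : ℕ → ℕ → 𝕜) (k l : ℕ) {t l' : ℕ} (ht : t < D) (hl' : l' < q + 1) :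
    ev (wk D q h k l) t l' - pv (wk D q h k l) t l' =
      if k = t then (if l = 0 then h k l' else if l' = l then 1 else 0) else 0 := by
  rw [ev_wk h k l ht hl']
  unfold pv
  by_cases h1 : t = 0
  · rw [if_pos h1, sub_zero, h1]
    simp only [Nat.le_zero]
  · rw [if_neg h1, ev_wk h k l (by omega) hl']
    rcases lt_trichotomy k t with h2 | h2 | h2
    · rw [if_pos (by omega : k ≤ t), if_pos (by omega : k ≤ t - 1), if_neg (by omega : ¬ k = t),
        sub_self]
    · rw [if_pos (by omega : k ≤ t), if_neg (by omega : ¬ k ≤ t - 1), if_pos h2, sub_zero]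
    · rw [if_neg (by omega : ¬ k ≤ t), if_neg (by omega : ¬ k ≤ t - 1),
        if_neg (by omega : ¬ k = t), sub_self]

lemma cv_wk {h : ℕ → ℕ → 𝕜} (h0 : ∀ k, h k 0 = 1) {k l k' l' : ℕ} (hk' : k' < D)
    (hl' : l' < q + 1) :
    cv h k' l' (wk D q h k l) = if k = k' ∧ l = l' then 1 else 0 := by
  unfold cv
  rw [ev_sub_pv_wk h k l hk' hl', ev_sub_pv_wk h k l hk' (Nat.succ_pos q)]
  by_cases h1 : k = k'
  · subst h1
    simp only [if_true, true_and]
    by_cases h2 : l = 0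
    · subst h2
      by_cases h3 : l' = 0
      · subst h3
        simp [h0]
      · rw [if_pos rfl, if_neg h3, if_pos rfl, h0, mul_one, sub_self, if_neg (Ne.symm h3)]
    · rw [if_neg h2, if_neg h2, if_neg (Ne.symm h2), mul_zero, ite_self, sub_zero]
      by_cases h3 : l' = l
      · rw [if_pos h3, if_pos h3.symm]
      · rw [if_neg h3, if_neg (Ne.symm h3)]
  · rw [if_neg h1, if_neg h1, mul_zero, ite_self, sub_zero, if_neg (fun h => h1 h.1)]

lemma norm_cv_le {h : ℕ → ℕ → 𝕜} (hh : ∀ k l, ‖h k l‖ ≤ 1) (k l : ℕ)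
    (z : Fin D × Fin (q + 1) → 𝕜) : ‖cv h k l z‖ ≤ 4 * ‖z‖ := by
  have h1 : ∀ l, ‖ev z k l - pv z k l‖ ≤ 2 * ‖z‖ := fun l =>
    (norm_sub_le _ _).trans (by linarith [norm_ev_le z k l, norm_pv_le z k l])
  unfold cv
  refine (norm_sub_le _ _).trans ?_
  have h2 := h1 l
  have h3 := h1 0
  have h4 := norm_nonneg z
  split_ifs
  · rw [norm_zero]
    linarith
  · rw [norm_mul]
    have h5 : ‖h k l‖ * ‖ev z k 0 - pv z k 0‖ ≤ 1 * (2 * ‖z‖) :=
      mul_le_mul (hh k l) h3 (norm_nonneg _) zero_le_one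
    linarith

lemma norm_wk_le {h : ℕ → ℕ → 𝕜} (hh : ∀ k l, ‖h k l‖ ≤ 1) (k l : ℕ) :
    ‖wk D q h k l‖ ≤ 1 := by
  rw [pi_norm_le_iff_of_nonneg zero_le_one]
  intro x
  unfold wk
  split_ifs
  · exact hh _ _
  · rw [norm_one]
  · rw [norm_zero]
    exact zero_le_one
  · rw [norm_zero]
    exact zero_le_one

lemma exists_dm {q : ℕ} (j : ℕ) : ∃ k l, l < q + 1 ∧ j = k * (q + 1) + l :=
  ⟨j / (q + 1), j % (q + 1), Nat.mod_lt _ (Nat.succ_pos q), (Nat.div_add_mod' j (q + 1)).symm⟩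

lemma norm_wv_le {h : ℕ → ℕ → 𝕜} (hh : ∀ k l, ‖h k l‖ ≤ 1) (j : ℕ) : ‖wv D q h j‖ ≤ 1 :=
  norm_wk_le hh _ _

/-- the concrete space has the required data -/
theorem exists_vdata {h : ℕ → ℕ → 𝕜} (h0 : ∀ k, h k 0 = 1) (hh : ∀ k l, ‖h k l‖ ≤ 1) :
    ∃ (N : ℕ) (d : ℕ → (Fin D × Fin (q + 1) → 𝕜)),
      VData (D * (q + 1)) N (wv D q h) (cfn D q h) d := by
  classical
  set X := Fin D × Fin (q + 1) with hX
  let e := Fintype.equivFin (X → Bool)
  refine ⟨Fintype.card (X → Bool), fun s => if hs : s < Fintype.card (X → Bool) then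
    sgv 𝕜 (e.symm ⟨s, hs⟩) else 0, ?_⟩
  have hd : ∀ s, ‖(if hs : s < Fintype.card (X → Bool) then
      sgv 𝕜 (e.symm ⟨s, hs⟩) else 0 : X → 𝕜)‖ ≤ 1 := by
    intro s
    split_ifs
    · exact norm_sgv_le _
    · rw [norm_zero]
      exact zero_le_one
  refine ⟨fun j _ => norm_wv_le hh j, ?_, ?_, ?_, ?_⟩
  · intro j _ s _
    set z : X → 𝕜 := if hs : s < Fintype.card (X → Bool) then sgv 𝕜 (e.symm ⟨s, hs⟩) else 0
      with hz
    obtain ⟨k, l, hl, rfl⟩ := exists_dm (q := q) j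
    rw [pi_norm_le_iff_of_nonneg (by norm_num)]
    intro x
    have h1 := partial_sum h0 z x k (l + 1) (by omega)
    rw [Finset.sum_apply]
    simp only [Pi.smul_apply, smul_eq_mul]
    rw [add_assoc, h1]
    have h2 := norm_ps_le hh z k (l + 1) x.1 x.2
    have h3 := hd s
    rw [← hz] at h3
    linarith
  · intro j s
    have h2 := norm_cv_le hh (j / (q + 1)) (j % (q + 1)) (if hs : s < Fintype.card (X → Bool) then
      sgv 𝕜 (e.symm ⟨s, hs⟩) else 0 : X → 𝕜)
    have h3 := hd s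
    refine le_trans h2 ?_
    linarith
  · intro i hi j hj
    obtain ⟨k, l, hl, rfl⟩ := exists_dm (q := q) i
    obtain ⟨k', l', hl', rfl⟩ := exists_dm (q := q) j
    have hk' : k' < D := by
      by_contra hcon
      have : D * (q + 1) ≤ k' * (q + 1) := Nat.mul_le_mul_right _ (not_lt.1 hcon)
      omega
    rw [cfn_apply h k' hl', wv_apply h k hl, cv_wk h0 hk' hl']
    refine if_congr ?_ rfl rfl
    constructor
    · rintro ⟨h1, h2⟩
      rw [h1, h2]
    · intro h1
      have e1 := congrArg (fun n => n / (q + 1)) h1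
      have e2 := congrArg (fun n => n % (q + 1)) h1
      simp only [dm_div k hl, dm_div k' hl', dm_mod k hl, dm_mod k' hl'] at e1 e2
      exact ⟨e1, e2⟩
  · intro z
    obtain ⟨β, hβ1, hβ2⟩ := exists_comb z
    refine ⟨fun s => if hs : s < Fintype.card (X → Bool) then β (e.symm ⟨s, hs⟩) else 0,
      ?_, ?_⟩
    · conv_lhs => rw [hβ1]
      rw [Finset.sum_range, ← Equiv.sum_comp e.symm]
      refine Finset.sum_congr rfl fun s _ => ?_
      simp only [s.2, dif_pos]
    · refine le_trans (le_of_eq ?_) hβ2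
      rw [Finset.sum_range, ← Equiv.sum_comp e.symm (fun ε => ‖β ε‖)]
      refine Finset.sum_congr rfl fun s _ => ?_
      simp only [s.2, dif_pos]

/-- special indices -/
def spq (q : ℕ) (j : ℕ) : Prop := j % (q + 1) = 0

instance (q : ℕ) : DecidablePred (spq q) := fun j => inferInstanceAs (Decidable (j % (q + 1) = 0))

lemma spq_iff (k : ℕ) {l : ℕ} (hl : l < q + 1) : spq q (k * (q + 1) + l) ↔ l = 0 := by
  unfold spq
  rw [dm_mod k hl]

/-- sums over the special indices -/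
lemma io_eq {V : Type*} [NormedAddCommGroup V] [NormedSpace 𝕜 V] (w : ℕ → V) (σ : ℕ → 𝕜) :
    io (D * (q + 1)) (spq q) w σ = ∑ k ∈ range D, σ (k * (q + 1)) • w (k * (q + 1)) := by
  unfold io
  rw [sum_blocks]
  refine sum_congr rfl fun k _ => ?_
  rw [Finset.sum_eq_single 0]
  · rw [if_pos ((spq_iff k (Nat.succ_pos q)).2 rfl), add_zero]
  · intro l hl h1
    rw [if_neg (fun h2 => h1 ((spq_iff k (mem_range.1 hl)).1 h2)), zero_smul]
  · intro h1
    exact absurd (mem_range.2 (Nat.succ_pos q)) h1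

lemma io_apply (h : ℕ → ℕ → 𝕜) (σ : ℕ → 𝕜) (x : Fin D × Fin (q + 1)) :
    io (D * (q + 1)) (spq q) (wv D q h) σ x =
      ∑ k ∈ range (x.1 + 1), σ (k * (q + 1)) * h k x.2 := by
  rw [io_eq, Finset.sum_apply]
  have h1 : range ((x.1 : ℕ) + 1) ⊆ range D := by
    intro k hk
    rw [mem_range] at hk ⊢
    have := x.1.2
    omega
  rw [← sum_subset h1]
  · refine sum_congr rfl fun k hk => ?_
    rw [mem_range] at hk
    have := wv_apply (D := D) h k (Nat.succ_pos q)
    rw [add_zero] at this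
    rw [Pi.smul_apply, smul_eq_mul, this]
    unfold wk
    rw [if_pos (by omega : k ≤ (x.1 : ℕ)), if_pos rfl]
  · intro k _ hk
    rw [mem_range] at hk
    have := wv_apply (D := D) h k (Nat.succ_pos q)
    rw [add_zero] at this
    rw [Pi.smul_apply, smul_eq_mul, this]
    unfold wk
    rw [if_neg (by omega : ¬ k ≤ (x.1 : ℕ)), mul_zero]

end

end Pool.Agent.H42.NP
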